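import Mathlib
import Pool.Agent.Lib.MP_0a1b52_lc_SLICE.Defs

/-!
Definitions for the results on sets of slices and numbers of NOT gates.
-/

namespace Pool.Agent.SliceCircuits

/-- `R` contains numbers `a₀ < b₀ < a₁ < b₁ < ... < a_{d-1} < b_{d-1}` with `a_i + g ≤ b_i` for all
`i`. -/
def Drops (g : ℕ) (R : Finset ℕ) (d : ℕ) : Prop :=
  ∃ a b : ℕ → ℕ, (∀ i < d, a i ∈ R ∧ b i ∈ R ∧ a i + g ≤ b i) ∧ ∀ i, i + 1 < d → b i < a (i + 1)

/-- For large `n` the set `R n` is not empty, its elements lie in the range from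
`n + ω(r log⁸ n)` to `n(n - 1)/2 - n⌊√n⌋ - ω(r log⁸ n)` where `r = |R n|`, and any two of them differ
by at most `K` or by at least `ω(log⁴ n)`. -/
def Clustered (K : ℕ) (R : ℕ → Finset ℕ) : Prop :=
  ∀ C : ℕ, ∃ n₀ : ℕ, ∀ n ≥ n₀, (R n).Nonempty ∧
    (∀ a ∈ R n, ∀ b ∈ R n, a + K < b → a + C * Nat.log 2 n ^ 4 ≤ b) ∧
    ∀ a ∈ R n, n + C * (R n).card * Nat.log 2 n ^ 8 ≤ a ∧
      a + n * Nat.sqrt n + C * (R n).card * Nat.log 2 n ^ 8 ≤ n.choose 2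

/-- There are a constant `k` and, for all large `n`, a circuit with at most `2 ^ ((log₂ n) ^ k)`
gates, at most `h n` of which are NOT gates, that computes `CLIQUE_n` correctly on all graphs whose
number of edges lies in `R n`. -/
def QuasiPolySizeOn (R : ℕ → Set ℕ) (h : ℕ → ℕ) : Prop :=
  ∃ k N : ℕ, ∀ n ≥ N, ∃ s ≤ 2 ^ Nat.log 2 n ^ k, ∃ D : Circuit (EdgeVar n) s,
    D.numNot ≤ h n ∧ D.CorrectOn (R n)

/-- `CLIQUE_n` has circuits of quasi-polynomial size. -/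
def QuasiPolySize : Prop :=
  ∃ k N : ℕ, ∀ n ≥ N, ∃ s ≤ 2 ^ Nat.log 2 n ^ k, ∃ D : Circuit (EdgeVar n) s,
    D.CorrectOn Set.univ

/-- The elements of `R n` lie in the middle half of the range, for large `n`. -/
def Middle (R : ℕ → Finset ℕ) : Prop :=
  ∃ n₀ : ℕ, ∀ n ≥ n₀, (R n).Nonempty ∧ ∀ a ∈ R n, n.choose 2 ≤ 4 * a ∧ 4 * a ≤ 3 * n.choose 2

end Pool.Agent.SliceCircuits
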