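import Mathlib
import Pool.Agent.Lib.MP_0a1b52_lc_SLICE2.Defs2

/-!
Chains of drops in a set of slices.
-/

namespace Pool.Agent.SliceCircuits

theorem Drops.mono_d {g : ℕ} {R : Finset ℕ} {d d' : ℕ} (h : Drops g R d) (hd : d' ≤ d) :
    Drops g R d' := by
  obtain ⟨a, b, h1, h2⟩ := h
  exact ⟨a, b, fun i hi => h1 i (by omega), fun i hi => h2 i (by omega)⟩

theorem Drops.mono_g {g g' : ℕ} {R : Finset ℕ} {d : ℕ} (h : Drops g R d) (hg : g' ≤ g) :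
    Drops g' R d := by
  obtain ⟨a, b, h1, h2⟩ := h
  exact ⟨a, b, fun i hi => ⟨(h1 i hi).1, (h1 i hi).2.1, by have := (h1 i hi).2.2; omega⟩, h2⟩

theorem Drops.mono_R {g : ℕ} {R R' : Finset ℕ} {d : ℕ} (h : Drops g R d) (hR : R ⊆ R') :
    Drops g R' d := by
  obtain ⟨a, b, h1, h2⟩ := h
  exact ⟨a, b, fun i hi => ⟨hR (h1 i hi).1, hR (h1 i hi).2.1, (h1 i hi).2.2⟩, h2⟩

end Pool.Agent.SliceCircuits
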