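import Mathlib
import Pool.Agent.Lib.MP_0a1b52_lc_SLICE.Inv

/-!
Circuits without NOT gates that separate the positive inputs of a slice from the negative inputs of
a neighbouring slice.
-/

namespace Pool.Agent.SliceCircuits

open Finset

variable {V : Type} {s h : ℕ} {T : Set (BF V)}

open Classical in
/-- At least `j` of the functions `φ i`, `i ∈ I`, are true. -/
def ThF {ι : Type} (I : Finset ι) (φ : ι → BF V) (j : ℕ) : BF V :=
  fun x => j ≤ (I.filter fun i => φ i x).card

theorem ThF_zero {ι : Type} (I : Finset ι) (φ : ι → BF V) : ThF I φ 0 = fun _ => True := by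
  funext x
  exact propext ⟨fun _ => trivial, fun _ => Nat.zero_le _⟩

theorem ThF_empty {ι : Type} (φ : ι → BF V) (j : ℕ) :
    ThF (∅ : Finset ι) φ (j + 1) = fun _ => False := by
  funext x
  refine propext ⟨fun h1 => ?_, fun h1 => h1.elim⟩
  unfold ThF at h1
  simp at h1

open Classical in
theorem ThF_insert {ι : Type} {I : Finset ι} {φ : ι → BF V} {a : ι} (ha : a ∉ I) (j : ℕ) :
    ThF (insert a I) φ (j + 1) = fun x => ThF I φ (j + 1) x ∨ (ThF I φ j x ∧ φ a x) := by
  classical
  funext x
  apply propext
  unfold ThF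
  rw [filter_insert]
  by_cases hx : φ a x
  · rw [if_pos hx, card_insert_of_notMem (fun h1 => ha (mem_filter.1 h1).1)]
    simp only [hx, and_true]
    omega
  · rw [if_neg hx]
    simp only [hx, and_false, or_false]

/-- Threshold functions of given functions. -/
theorem Reach.thrF {ι : Type} (hR : Reach s h T) (I : Finset ι) (φ : ι → BF V)
    (hv : ∀ i ∈ I, φ i ∈ T) (ht : (fun _ => True) ∈ T) (hf : (fun _ => False) ∈ T) (K : ℕ) :
    ∃ T₁, T ⊆ T₁ ∧ Reach (s + I.card * (2 * (K + 1))) h T₁ ∧ ∀ j ≤ K, ThF I φ j ∈ T₁ := by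
  classical
  induction I using Finset.induction_on with
  | empty =>
    refine ⟨T, subset_rfl, hR.mono (by simp) le_rfl subset_rfl, fun j _ => ?_⟩
    cases j with
    | zero => rw [ThF_zero]; exact ht
    | succ j => rw [ThF_empty]; exact hf
  | insert a I ha ih =>
    obtain ⟨T₁, h1, h2, h3⟩ := ih fun i hi => hv i (mem_insert_of_mem hi)
    have h4 := h2.seq (fun j x => ThF I φ j x ∧ φ a x) (K + 1) (fun i hi => by
      refine OneGate.mono (T := T₁) ?_ (Set.subset_union_left)
      exact oneGate_and (h3 i (by omega)) (h1 (hv a (mem_insert_self _ _))))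
    have h5 := h4.seq (fun j => ThF (insert a I) φ j) (K + 1) (fun i hi => by
      refine OneGate.mono (T := T₁ ∪ {f | ∃ i < K + 1, f = fun x => ThF I φ i x ∧ φ a x}) ?_
        (Set.subset_union_left)
      cases i with
      | zero =>
        show OneGate _ (ThF (insert a I) φ 0)
        rw [ThF_zero]
        exact oneGate_true
      | succ i =>
        show OneGate _ (ThF (insert a I) φ (i + 1))
        rw [ThF_insert ha]
        exact oneGate_or (Or.inl (h3 (i + 1) (by omega))) (Or.inr ⟨i, by omega, rfl⟩))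
    refine ⟨_, ?_, h5.mono ?_ le_rfl subset_rfl, ?_⟩
    · exact (h1.trans Set.subset_union_left).trans Set.subset_union_left
    · rw [card_insert_of_notMem ha]
      exact le_of_eq (by ring)
    · intro j hj
      exact Or.inr ⟨j, by omega, rfl⟩

/-- The simulation of a circuit by a circuit without NOT gates, on the inputs given by the
functions `u v`, for the assignments in `A`, given circuits for the functions `u v` and their
negations. -/
theorem Reach.rail' {s₀ : ℕ} (D : Circuit V s₀) (A : (V → Prop) → Prop) (u : V → BF V)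
    (hR : Reach s h T) (hv : ∀ v, u v ∈ T)
    (hn : ∀ v, ∃ q ∈ T, ∀ x, A x → (q x ↔ ¬ u v x)) (k : ℕ) :
    ∃ T₁, T ⊆ T₁ ∧ Reach (s + 2 * k) h T₁ ∧ ∀ i : Fin s₀, i.1 < k → ∃ p ∈ T₁, ∃ q ∈ T₁,
      ∀ x, A x → ∀ val, D.IsEval (fun v => u v x) val → (p x ↔ val i) ∧ (q x ↔ ¬ val i) := by
  classical
  induction k with
  | zero => exact ⟨T, subset_rfl, hR.mono (by simp) le_rfl subset_rfl, fun i hi => absurd hi (by simp)⟩
  | succ k ih =>
    obtain ⟨T₁, h1, h2, h3⟩ := ih
    by_cases hk : k < s₀
    swap
    · refine ⟨T₁, h1, h2.mono (by omega) le_rfl subset_rfl, fun i hi => h3 i ?_⟩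
      have := i.2
      omega
    have hw : ∀ w : V ⊕ Fin s₀, w ∈ (D.gate ⟨k, hk⟩).wires → ∃ p ∈ T₁, ∃ q ∈ T₁,
        ∀ x, A x → ∀ val, D.IsEval (fun v => u v x) val →
          (p x ↔ Sum.elim (fun v => u v x) val w) ∧ (q x ↔ ¬ Sum.elim (fun v => u v x) val w) := by
      intro w hw
      cases w with
      | inl v =>
        obtain ⟨q, hq, hq'⟩ := hn v
        exact ⟨_, h1 (hv v), q, h1 hq, fun x hx val _ => ⟨Iff.rfl, hq' x hx⟩⟩
      | inr j => exact h3 j (D.acyclic _ j hw)
    choose! p hp q hq hpq using hw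
    have key : ∃ f g : BF V, OneGate T₁ f ∧ OneGate T₁ g ∧
        ∀ x, A x → ∀ val, D.IsEval (fun v => u v x) val →
          (f x ↔ val ⟨k, hk⟩) ∧ (g x ↔ ¬ val ⟨k, hk⟩) := by
      cases hg : D.gate ⟨k, hk⟩ with
      | and J =>
        rw [hg] at hp hq hpq
        refine ⟨fun x => ∀ f ∈ p '' (J : Set (V ⊕ Fin s₀)), f x,
          fun x => ∃ f ∈ q '' (J : Set (V ⊕ Fin s₀)), f x,
          Or.inl ⟨_, J.finite_toSet.image p, ?_, rfl⟩,
          Or.inr ⟨_, J.finite_toSet.image q, ?_, rfl⟩, ?_⟩
        · rintro f ⟨w, hw, rfl⟩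
          exact hp w hw
        · rintro f ⟨w, hw, rfl⟩
          exact hq w hw
        intro x hx val hval
        have h4 : val ⟨k, hk⟩ ↔ ∀ w ∈ J, Sum.elim (fun v => u v x) val w := by
          have h5 := hval ⟨k, hk⟩
          rw [hg] at h5
          exact h5
        rw [h4]
        constructor
        · constructor
          · exact fun h5 w hw => (hpq w hw x hx val hval).1.1 (h5 _ ⟨w, hw, rfl⟩)
          · rintro h5 f ⟨w, hw, rfl⟩
            exact (hpq w hw x hx val hval).1.2 (h5 w hw)
        · constructor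
          · rintro ⟨f, ⟨w, hw, rfl⟩, h5⟩ h6
            exact (hpq w hw x hx val hval).2.1 h5 (h6 w hw)
          · intro h5
            push Not at h5
            obtain ⟨w, hw, h6⟩ := h5
            exact ⟨_, ⟨w, hw, rfl⟩, (hpq w hw x hx val hval).2.2 h6⟩
      | or J =>
        rw [hg] at hp hq hpq
        refine ⟨fun x => ∃ f ∈ p '' (J : Set (V ⊕ Fin s₀)), f x,
          fun x => ∀ f ∈ q '' (J : Set (V ⊕ Fin s₀)), f x,
          Or.inr ⟨_, J.finite_toSet.image p, ?_, rfl⟩,
          Or.inl ⟨_, J.finite_toSet.image q, ?_, rfl⟩, ?_⟩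
        · rintro f ⟨w, hw, rfl⟩
          exact hp w hw
        · rintro f ⟨w, hw, rfl⟩
          exact hq w hw
        intro x hx val hval
        have h4 : val ⟨k, hk⟩ ↔ ∃ w ∈ J, Sum.elim (fun v => u v x) val w := by
          have h5 := hval ⟨k, hk⟩
          rw [hg] at h5
          exact h5
        rw [h4]
        constructor
        · constructor
          · rintro ⟨f, ⟨w, hw, rfl⟩, h5⟩
            exact ⟨w, hw, (hpq w hw x hx val hval).1.1 h5⟩
          · rintro ⟨w, hw, h5⟩
            exact ⟨_, ⟨w, hw, rfl⟩, (hpq w hw x hx val hval).1.2 h5⟩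
        · constructor
          · rintro h5 ⟨w, hw, h6⟩
            exact (hpq w hw x hx val hval).2.1 (h5 _ ⟨w, hw, rfl⟩) h6
          · rintro h5 f ⟨w, hw, rfl⟩
            exact (hpq w hw x hx val hval).2.2 fun h6 => h5 ⟨w, hw, h6⟩
      | not w =>
        rw [hg] at hp hq hpq
        have hw : w ∈ (Gate.not w : Gate V s₀).wires := mem_singleton_self w
        refine ⟨q w, p w, oneGate_self (hq w hw), oneGate_self (hp w hw), ?_⟩
        intro x hx val hval
        have h4 : val ⟨k, hk⟩ ↔ ¬ Sum.elim (fun v => u v x) val w := by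
          have h5 := hval ⟨k, hk⟩
          rw [hg] at h5
          exact h5
        rw [h4, not_not]
        exact ⟨(hpq w hw x hx val hval).2, (hpq w hw x hx val hval).1⟩
    obtain ⟨f, g, hf, hg, hfg⟩ := key
    refine ⟨insert g (insert f T₁), ?_, ?_, ?_⟩
    · exact (h1.trans (Set.subset_insert _ _)).trans (Set.subset_insert _ _)
    · exact ((h2.one hf).one (hg.mono (Set.subset_insert _ _))).mono (by omega) le_rfl subset_rfl
    · intro i hi
      rcases Nat.lt_succ_iff_lt_or_eq.1 hi with h4 | h4
      · obtain ⟨p, hp, q, hq, h5⟩ := h3 i h4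
        exact ⟨p, Or.inr (Or.inr hp), q, Or.inr (Or.inr hq), h5⟩
      · have h5 : i = ⟨k, hk⟩ := Fin.ext h4
        subst h5
        exact ⟨f, Or.inr (Or.inl rfl), g, Or.inl rfl, hfg⟩

/-- Delete the variables in `S`. -/
def del (S : Finset V) (x : V → Prop) : V → Prop := fun v => x v ∧ v ∉ S

theorem del_empty (x : V → Prop) : del (∅ : Finset V) x = x := by
  funext v
  exact propext ⟨fun h1 => h1.1, fun h1 => ⟨h1, notMem_empty v⟩⟩

variable [Fintype V]

/-- `F` separates the positive inputs `x` of `f` of weight `a` from the negative ones of weight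
`a + g`, after deletion of the variables in `S`. -/
def Sep (f : BF V) (a g : ℕ) (S : Finset V) (F : BF V) : Prop :=
  (∀ x, wt (del S x) = a → f (del S x) → F x) ∧
    ∀ x, wt (del S x) = a + g → ¬ f (del S x) → ¬ F x

/-- `f` is monotone. -/
def Mon (f : BF V) : Prop := ∀ x y : V → Prop, (∀ v, x v → y v) → f x → f y

theorem wt_del [DecidableEq V] (S : Finset V) (x : V → Prop) [DecidablePred x] :
    wt (del S x) = ((univ \ S).filter fun v => x v).card := by
  classical
  unfold wt del
  refine congrArg Finset.card ?_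
  ext v
  simp only [mem_filter, mem_univ, true_and, mem_sdiff]
  tauto

theorem sep_step [DecidableEq V] {f : BF V} (hf : Mon f) {a g : ℕ} {S : Finset V}
    {Φ : V → BF V} (h1 : ∀ i, i ∉ S → Sep f a g (insert i S) (Φ i)) :
    Sep f a (g + 1) S (ThF (univ \ S) Φ ((univ \ S).card - a)) := by
  classical
  have hcount : ∀ x : V → Prop, ((univ \ S).filter fun v => ¬ x v).card + wt (del S x) =
      (univ \ S).card := by
    intro x
    rw [wt_del, add_comm]
    exact card_filter_add_card_filter_not (fun v => x v)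
  constructor
  · intro x hx hfx
    show (univ \ S).card - a ≤ ((univ \ S).filter fun i => Φ i x).card
    have h2 : ((univ \ S).filter fun v => ¬ x v) ⊆ ((univ \ S).filter fun i => Φ i x) := by
      intro i hi
      obtain ⟨h3, h4⟩ := mem_filter.1 hi
      have h5 : i ∉ S := (mem_sdiff.1 h3).2
      have h6 : del (insert i S) x = del S x := by
        funext v
        apply propext
        constructor
        · exact fun h7 => ⟨h7.1, fun h8 => h7.2 (mem_insert_of_mem h8)⟩
        · rintro ⟨h7, h8⟩
          refine ⟨h7, fun h9 => ?_⟩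
          rcases mem_insert.1 h9 with rfl | h9
          · exact h4 h7
          · exact h8 h9
      refine mem_filter.2 ⟨h3, (h1 i h5).1 x ?_ ?_⟩
      · rw [h6]
        exact hx
      · rw [h6]
        exact hfx
    have h3 := card_le_card h2
    have h4 := hcount x
    omega
  · intro x hx hfx h2
    have h2' : (univ \ S).card - a ≤ ((univ \ S).filter fun i => Φ i x).card := h2
    have h3 : ((univ \ S).filter fun i => Φ i x) ⊆ ((univ \ S).filter fun v => ¬ x v) := by
      intro i hi
      obtain ⟨h3, h4⟩ := mem_filter.1 hi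
      refine mem_filter.2 ⟨h3, fun h5 => ?_⟩
      have h6 : i ∉ S := (mem_sdiff.1 h3).2
      refine (h1 i h6).2 x ?_ ?_ h4
      · have h7 : ((univ \ S).filter fun v => x v) =
            insert i ((univ \ insert i S).filter fun v => x v) := by
          ext v
          simp only [mem_filter, mem_sdiff, mem_univ, true_and, mem_insert, not_or]
          constructor
          · rintro ⟨h8, h9⟩
            by_cases h10 : v = i
            · exact Or.inl h10
            · exact Or.inr ⟨⟨h10, h8⟩, h9⟩
          · rintro (rfl | ⟨⟨-, h8⟩, h9⟩)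
            · exact ⟨h6, h5⟩
            · exact ⟨h8, h9⟩
        have h8 : i ∉ ((univ \ insert i S).filter fun v => x v) := by
          intro h9
          exact (mem_sdiff.1 (mem_filter.1 h9).1).2 (mem_insert_self _ _)
        have h9 := congrArg Finset.card h7
        rw [card_insert_of_notMem h8, ← wt_del, ← wt_del] at h9
        omega
      · intro h7
        refine hfx (hf _ _ ?_ h7)
        exact fun v h8 => ⟨h8.1, fun h9 => h8.2 (mem_insert_of_mem h9)⟩
    have h4 := card_le_card h3
    have h5 := hcount x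
    omega

end Pool.Agent.SliceCircuits
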