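import Mathlib
import Pool.Agent.Lib.MP_0a1b52_lc_SLICE2.Sep
import Pool.Agent.Lib.MP_0a1b52_lc_SLICE2.Drops

/-!
The upper bound for sets of slices without long chains of drops.
-/

namespace Pool.Agent.SliceCircuits

open Finset

/-- The greedy decomposition. -/
theorem exists_cuts (K : ℕ) (R : Finset ℕ) : ∃ B ⊆ R, Drops (K + 1) R B.card ∧
    ∀ k ∈ R, ∀ l ∈ R, k < l → (∀ b ∈ B, ¬ (k ≤ b ∧ b ≤ l)) → l ≤ k + K := by
  classical
  induction R using Finset.strongInduction with
  | H R ih =>
    by_cases h0 : R.Nonempty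
    swap
    · rw [not_nonempty_iff_eq_empty] at h0
      subst h0
      exact ⟨∅, subset_rfl, ⟨fun _ => 0, fun _ => 0, by simp, by simp⟩, by simp⟩
    obtain ⟨a, ha, ha'⟩ : ∃ a ∈ R, ∀ m ∈ R, a ≤ m := ⟨R.min' h0, R.min'_mem h0, R.min'_le⟩
    by_cases h1 : (R.filter fun m => a + K < m).Nonempty
    swap
    · rw [not_nonempty_iff_eq_empty] at h1
      refine ⟨∅, empty_subset _, ⟨fun _ => 0, fun _ => 0, by simp, by simp⟩, ?_⟩
      intro k hk l hl _ _
      have h2 : ¬ a + K < l := fun h3 => notMem_empty l (h1 ▸ mem_filter.2 ⟨hl, h3⟩)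
      have := ha' k hk
      omega
    obtain ⟨b, hb, hb'⟩ : ∃ b ∈ R.filter (fun m => a + K < m), ∀ m ∈ R.filter (fun m => a + K < m),
        b ≤ m := ⟨_, min'_mem _ h1, min'_le _⟩
    obtain ⟨hbR, hab⟩ := mem_filter.1 hb
    have hlt : R.filter (fun m => b < m) ⊂ R :=
      filter_ssubset.2 ⟨b, hbR, lt_irrefl b⟩
    obtain ⟨B, hB, ⟨a', b', h2, h3⟩, h4⟩ := ih _ hlt
    have hbB : b ∉ B := fun h5 => lt_irrefl b (mem_filter.1 (hB h5)).2
    refine ⟨insert b B, ?_, ?_, ?_⟩
    · exact insert_subset hbR (hB.trans (filter_subset _ _))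
    · rw [card_insert_of_notMem hbB]
      refine ⟨fun i => if i = 0 then a else a' (i - 1), fun i => if i = 0 then b else b' (i - 1),
        ?_, ?_⟩
      · intro i hi
        rcases Nat.eq_zero_or_pos i with rfl | h5
        · simp only [if_pos]
          exact ⟨ha, hbR, by omega⟩
        · have h6 : i ≠ 0 := by omega
          simp only [if_neg h6]
          obtain ⟨h7, h8, h9⟩ := h2 (i - 1) (by omega)
          exact ⟨(mem_filter.1 h7).1, (mem_filter.1 h8).1, h9⟩
      · intro i hi
        rcases Nat.eq_zero_or_pos i with rfl | h5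
        · have h7 := (mem_filter.1 (h2 0 (by omega)).1).2
          simpa using h7
        · have h6 : i ≠ 0 := by omega
          simp only [if_neg h6, if_neg (Nat.succ_ne_zero i)]
          have h7 := h3 (i - 1) (by omega)
          rwa [show i - 1 + 1 = i + 1 - 1 by omega] at h7
    · intro k hk l hl hkl h5
      rcases lt_trichotomy k b with h6 | rfl | h6
      · by_cases h7 : b ≤ l
        · exact absurd ⟨h6.le, h7⟩ (h5 b (mem_insert_self _ _))
        · have h8 : ¬ a + K < l := fun h9 => h7 (hb' l (mem_filter.2 ⟨hl, h9⟩))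
          have := ha' k hk
          omega
      · exact absurd ⟨le_rfl, hkl.le⟩ (h5 k (mem_insert_self _ _))
      · exact h4 k (mem_filter.2 ⟨hk, h6⟩) l (mem_filter.2 ⟨hl, h6.trans hkl⟩) hkl
          fun c hc => h5 c (mem_insert_of_mem hc)

variable {V : Type} [Fintype V] {s h : ℕ} {T : Set (BF V)}

/-- The simulation of a circuit on the slice `|x - S| = a`. -/
theorem Reach.base [DecidableEq V] {s₀ : ℕ} (D : Circuit V s₀) (f : BF V) (a : ℕ)
    (hD : ∀ x, wt x = a → (D.Accepts x ↔ f x)) (S : Finset V) (hR : Reach s h T)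
    (hv : ∀ v, (fun x => x v) ∈ T) (ht : (fun _ => True) ∈ T) (hf : (fun _ => False) ∈ T)
    (hth : ∀ v, v ∉ S → Th (univ \ insert v S) a ∈ T) :
    ∃ T₁, T ⊆ T₁ ∧ Reach (s + 2 * s₀) h T₁ ∧ ∃ F ∈ T₁, Sep f a 0 S F := by
  classical
  obtain ⟨T₁, h1, h2, h3⟩ := Reach.rail' D (fun x => wt (del S x) = a) (fun v x => x v ∧ v ∉ S)
    hR (by
      intro v
      by_cases hvS : v ∈ S
      · have : (fun x : V → Prop => x v ∧ v ∉ S) = fun _ => False := by
          funext x
          exact propext ⟨fun h1 => h1.2 hvS, fun h1 => h1.elim⟩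
        rw [this]
        exact hf
      · have : (fun x : V → Prop => x v ∧ v ∉ S) = fun x => x v := by
          funext x
          exact propext ⟨fun h1 => h1.1, fun h1 => ⟨h1, hvS⟩⟩
        rw [this]
        exact hv v)
    (by
      intro v
      by_cases hvS : v ∈ S
      · exact ⟨_, ht, fun x _ => ⟨fun _ h1 => h1.2 hvS, fun _ => trivial⟩⟩
      · refine ⟨_, hth v hvS, fun x hx => ?_⟩
        rw [wt_del] at hx
        have h4 : Th (univ \ insert v S) a x ↔
            a ≤ ((univ \ insert v S).filter fun w => x w).card := Iff.rfl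
        rw [h4]
        by_cases hxv : x v
        · have h7 : ((univ \ S).filter fun w => x w) =
              insert v ((univ \ insert v S).filter fun w => x w) := by
            ext w
            simp only [mem_filter, mem_sdiff, mem_univ, true_and, mem_insert, not_or]
            constructor
            · rintro ⟨h8, h9⟩
              by_cases h10 : w = v
              · exact Or.inl h10
              · exact Or.inr ⟨⟨h10, h8⟩, h9⟩
            · rintro (rfl | ⟨⟨-, h8⟩, h9⟩)
              · exact ⟨hvS, hxv⟩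
              · exact ⟨h8, h9⟩
          have h8 : v ∉ ((univ \ insert v S).filter fun w => x w) := by
            intro h9
            exact (mem_sdiff.1 (mem_filter.1 h9).1).2 (mem_insert_self _ _)
          have h9 := congrArg Finset.card h7
          rw [card_insert_of_notMem h8, hx] at h9
          constructor
          · intro h10
            omega
          · intro h10
            exact absurd ⟨hxv, hvS⟩ h10
        · have h7 : ((univ \ S).filter fun w => x w) =
              ((univ \ insert v S).filter fun w => x w) := by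
            ext w
            simp only [mem_filter, mem_sdiff, mem_univ, true_and, mem_insert, not_or]
            constructor
            · rintro ⟨h8, h9⟩
              refine ⟨⟨?_, h8⟩, h9⟩
              rintro rfl
              exact hxv h9
            · rintro ⟨⟨-, h8⟩, h9⟩
              exact ⟨h8, h9⟩
          rw [← h7, hx]
          exact ⟨fun _ h10 => hxv h10.1, fun _ => le_rfl⟩)
    s₀
  obtain ⟨p, hp, q, hq, hpq⟩ := h3 D.out D.out.2
  have key : ∀ x, wt (del S x) = a → (p x ↔ f (del S x)) := by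
    intro x hx
    rw [← hD _ hx]
    obtain ⟨val, hval⟩ := D.exists_eval (del S x)
    rw [(hpq x hx val hval).1]
    constructor
    · exact fun h7 => ⟨val, hval, h7⟩
    · rintro ⟨val', h7, h8⟩
      rw [hval.unique h7]
      exact h8
  exact ⟨T₁, h1, h2, p, hp, fun x hx => (key x hx).2, fun x hx h4 h5 => h4 ((key x hx).1 h5)⟩

open Classical in
/-- The sets of at most `K` variables. -/
noncomputable def small (V : Type) [Fintype V] (K : ℕ) : Finset (Finset V) :=
  univ.filter fun S => S.card ≤ K

theorem mem_small {K : ℕ} {S : Finset V} : S ∈ small V K ↔ S.card ≤ K := by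
  unfold small
  simp

theorem card_small (K : ℕ) : (small V K).card ≤ (Fintype.card V + 1) ^ K := by
  classical
  have h1 : (univ : Finset (Fin K → Option V)).card = (Fintype.card V + 1) ^ K := by
    rw [card_univ, Fintype.card_fun, Fintype.card_option, Fintype.card_fin]
  rw [← h1]
  refine card_le_card_of_surjOn (fun φ => univ.filter fun v => ∃ i, φ i = some v) ?_
  intro S hS
  have hS' : S.card ≤ K := mem_small.1 hS
  refine ⟨fun i => if hi : i.1 < S.card then some (S.equivFin.symm ⟨i.1, hi⟩).1 else none,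
    mem_coe.2 (mem_univ _), ?_⟩
  ext v
  simp only [mem_filter, mem_univ, true_and]
  constructor
  · rintro ⟨i, hi⟩
    by_cases h2 : i.1 < S.card
    · rw [dif_pos h2] at hi
      rw [← Option.some.inj hi]
      exact (S.equivFin.symm ⟨i.1, h2⟩).2
    · rw [dif_neg h2] at hi
      exact absurd hi (by simp)
  · intro hv
    have h2 := (S.equivFin ⟨v, hv⟩).2
    refine ⟨⟨(S.equivFin ⟨v, hv⟩).1, by omega⟩, ?_⟩
    rw [dif_pos h2]
    simp

/-- The separators of all small sets of deleted variables. -/
theorem Reach.levels [DecidableEq V] {f : BF V} (hf : Mon f) {a K N : ℕ}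
    (hN : Fintype.card V = N) (hR : Reach s h T) (ht : (fun _ => True) ∈ T)
    (hfa : (fun _ => False) ∈ T) (hbase : ∀ S ∈ small V K, ∃ F ∈ T, Sep f a 0 S F) (g : ℕ) :
    ∃ T₁, T ⊆ T₁ ∧ Reach (s + g * ((small V K).card * (N * (2 * (N + 1))))) h T₁ ∧
      ∀ g' ≤ g, ∀ S : Finset V, S.card + g' ≤ K → ∃ F ∈ T₁, Sep f a g' S F := by
  classical
  induction g with
  | zero =>
    refine ⟨T, subset_rfl, hR.mono (by simp) le_rfl subset_rfl, fun g' hg' S hS => ?_⟩
    obtain rfl : g' = 0 := by omega
    exact hbase S (mem_small.2 (by omega))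
  | succ g ih =>
    obtain ⟨T₁, h1, h2, h3⟩ := ih
    obtain ⟨T₂, h4, h5, h6⟩ := Reach.family (h := h) (T := T₁) (small V K) (N * (2 * (N + 1)))
      (fun (S : Finset V) T => S.card + (g + 1) ≤ K → ∃ F ∈ T, Sep f a (g + 1) S F)
      (fun S T₁ T₂ h1 h2 h3 => by
        obtain ⟨F, hF, hF'⟩ := h2 h3
        exact ⟨F, h1 hF, hF'⟩)
      (by
        intro S hS s' T' h7 h8
        by_cases h9 : S.card + (g + 1) ≤ K
        swap
        · exact ⟨T', subset_rfl, h8.mono (by omega) le_rfl subset_rfl, fun h10 => absurd h10 h9⟩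
        have h10 : ∀ i, i ∉ S → ∃ F ∈ T₁, Sep f a g (insert i S) F := by
          intro i hi
          refine h3 g le_rfl _ ?_
          rw [card_insert_of_notMem hi]
          omega
        choose! Φ hΦ hΦ' using h10
        obtain ⟨T₂, h11, h12, h13⟩ := h8.thrF (univ \ S) Φ
          (fun i hi => h7 (hΦ i (mem_sdiff.1 hi).2)) (h7 (h1 ht)) (h7 (h1 hfa)) N
        have h14 : (univ \ S).card ≤ N := by
          rw [← hN]
          exact card_le_univ _
        refine ⟨T₂, h11, h12.mono ?_ le_rfl subset_rfl, fun _ =>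
          ⟨_, h13 ((univ \ S).card - a) (by omega), sep_step hf hΦ'⟩⟩
        exact Nat.add_le_add_left (Nat.mul_le_mul_right _ h14) s')
      h2
    refine ⟨T₂, h1.trans h4, h5.mono (le_of_eq (by ring)) le_rfl subset_rfl, ?_⟩
    intro g' hg' S hS
    rcases Nat.lt_succ_iff_lt_or_eq.1 (Nat.lt_succ_of_le hg') with h7 | rfl
    · obtain ⟨F, hF, hF'⟩ := h3 g' (by omega) S hS
      exact ⟨F, h4 hF, hF'⟩
    · exact h6 S (mem_small.2 (by omega)) hS

end Pool.Agent.SliceCircuits
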