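import Mathlib
import Pool.Agent.Lib.MP_0a1b52_lc_SLICE2.Up2

/-!
The upper bound for sets of slices without long chains of drops: the circuit.
-/

namespace Pool.Agent.SliceCircuits

open Finset

variable {V : Type} [Fintype V]

/-- The number of gates of the construction. -/
def cost (N K s₀ r d h : ℕ) : ℕ :=
  2 + (N + 1) ^ (K + 1) * (N * (2 * (N + 1 + 1))) +
    r * ((N + 1) ^ K * (2 * s₀) + K * ((N + 1) ^ K * (N * (2 * (N + 1))))) +
    r * (2 * s₀ + 4) + r * 1 + (2 * d + 1) * h + r * 1 + 1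

open Classical in
theorem upper2_core {s₀ : ℕ} (D : Circuit V s₀) {f : BF V} (hf : Mon f) (R B : Finset ℕ)
    (K h N : ℕ) (hN : Fintype.card V = N) (hRN : ∀ m ∈ R, m ≤ N)
    (hD : ∀ x, wt x ∈ R → (D.Accepts x ↔ f x)) (hBR : B ⊆ R)
    (hB : ∀ k ∈ R, ∀ l ∈ R, k < l → (∀ b ∈ B, ¬ (k ≤ b ∧ b ≤ l)) → l ≤ k + K)
    (hBh : B.card < 2 ^ h) :
    ∃ s' ≤ cost N K s₀ R.card B.card h, ∃ D' : Circuit V s', D'.numNot ≤ h ∧
      ∀ x, wt x ∈ R → (D'.Accepts x ↔ f x) := by
  classical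
  -- constants and variables
  have hR1 := (reach_vars (V := V)).one oneGate_true
  have hR2 := hR1.one oneGate_false
  set T2 : Set (BF V) := insert (fun _ => False) (insert (fun _ => True)
    {f : BF V | ∃ v, f = fun x => x v}) with hT2
  have hv2 : ∀ v : V, (fun x : V → Prop => x v) ∈ T2 := fun v => Or.inr (Or.inr ⟨v, rfl⟩)
  have ht2 : (fun _ => True : BF V) ∈ T2 := Or.inr (Or.inl rfl)
  have hf2 : (fun _ => False : BF V) ∈ T2 := Or.inl rfl
  -- thresholds
  obtain ⟨T3, h23, hR3, hth⟩ := Reach.family (h := 0) (T := T2)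
    (small V (K + 1)) (N * (2 * (N + 1 + 1)))
    (fun (S : Finset V) T => ∀ j ≤ N + 1, Th (univ \ S) j ∈ T)
    (fun S T₁ T₂ h1 h2 j hj => h1 (h2 j hj))
    (by
      intro S hS s T₁ h1 h2
      obtain ⟨T₂, h3, h4, h5⟩ := h2.thr (fun v => h1 (hv2 v)) (h1 ht2) (h1 hf2) (univ \ S) (N + 1)
      refine ⟨T₂, h3, h4.mono ?_ le_rfl subset_rfl, h5⟩
      have h6 : (univ \ S).card ≤ N := by
        rw [← hN]
        exact card_le_univ _
      exact Nat.add_le_add_left (Nat.mul_le_mul_right _ h6) s)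
    hR2
  have hthu : ∀ j ≤ N + 1, Th (univ : Finset V) j ∈ T3 := by
    intro j hj
    have h1 := hth ∅ (mem_small.2 (by simp)) j hj
    rwa [sdiff_empty] at h1
  have hthe : ∀ v : V, ∀ j ≤ N + 1, Th (univ.erase v) j ∈ T3 := by
    intro v j hj
    have h1 := hth {v} (mem_small.2 (by simp)) j hj
    rwa [sdiff_singleton_eq_erase] at h1
  -- separators
  obtain ⟨T4, h34, hR4, hsep⟩ := Reach.family (h := 0) (T := T3) R
    ((N + 1) ^ K * (2 * s₀) + K * ((N + 1) ^ K * (N * (2 * (N + 1)))))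
    (fun a T => ∀ g ≤ K, ∃ F ∈ T, Sep f a g ∅ F)
    (fun a T₁ T₂ h1 h2 g hg => by
      obtain ⟨F, hF, hF'⟩ := h2 g hg
      exact ⟨F, h1 hF, hF'⟩)
    (by
      intro a ha s T₁ h1 h2
      have haN := hRN a ha
      obtain ⟨T₂, h3, h4, h5⟩ := Reach.family (h := 0) (T := T₁) (small V K) (2 * s₀)
        (fun (S : Finset V) T => ∃ F ∈ T, Sep f a 0 S F)
        (fun S T₁ T₂ h1 h2 => by
          obtain ⟨F, hF, hF'⟩ := h2
          exact ⟨F, h1 hF, hF'⟩)
        (by
          intro S hS s T₂ h3 h4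
          refine Reach.base D f a (fun x hx => hD x (hx ▸ ha)) S h4
            (fun v => h3 (h1 (h23 (hv2 v)))) (h3 (h1 (h23 ht2))) (h3 (h1 (h23 hf2))) ?_
          intro v hv
          refine h3 (h1 (hth (insert v S) (mem_small.2 ?_) a (by omega)))
          have := mem_small.1 hS
          exact (card_insert_le _ _).trans (by omega))
        h2
      obtain ⟨T₃, h6, h7, h8⟩ := Reach.levels hf hN h4 (h3 (h1 (h23 ht2))) (h3 (h1 (h23 hf2)))
        h5 K
      refine ⟨T₃, h3.trans h6, h7.mono ?_ le_rfl subset_rfl, fun g hg => h8 g hg ∅ (by simpa)⟩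
      have h9 := card_small (V := V) K
      rw [hN] at h9
      have h10 : (small V K).card * (2 * s₀) ≤ (N + 1) ^ K * (2 * s₀) :=
        Nat.mul_le_mul_right _ h9
      have h11 : K * ((small V K).card * (N * (2 * (N + 1)))) ≤
          K * ((N + 1) ^ K * (N * (2 * (N + 1)))) :=
        Nat.mul_le_mul_left _ (Nat.mul_le_mul_right _ h9)
      omega)
    hR3
  -- slices
  obtain ⟨T5, h45, hR5, hsl⟩ := Reach.family (h := 0) (T := T4) R (2 * s₀ + 4)
    (fun m T => ∃ G ∈ T, IsSlice m (fun x => ¬ f x) G)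
    (fun m T₁ T₂ h1 ⟨G, hG, h2⟩ => ⟨G, h1 hG, h2⟩)
    (by
      intro m hm s T₁ h1 h2
      have h3 := hRN m hm
      obtain ⟨T₂, h4, h5, F, -, G, hG, -, hG'⟩ := h2.slice D f m (fun x hx => hD x (hx ▸ hm))
        (fun v => h1 (h34 (h23 (hv2 v)))) (fun v => h1 (h34 (hthe v m (by omega))))
        (h1 (h34 (hthu m (by omega)))) (h1 (h34 (hthu (m + 1) (by omega))))
      exact ⟨T₂, h4, h5, G, hG, hG'⟩)
    hR4
  choose! F hF hFs using hsep
  choose! G hG hGs using hsl
  -- the windows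
  obtain ⟨T6, h56, hR6, hwin⟩ := Reach.family (h := 0) (T := T5) R 1
    (fun k T => (fun x => Th univ k x ∧ ∀ g ≤ K, F k g x) ∈ T)
    (fun m T₁ T₂ h1 h2 => h1 h2)
    (by
      intro k hk s T₁ h1 h2
      refine ⟨_, Set.subset_insert _ _, h2.one (f := fun x => Th univ k x ∧ ∀ g ≤ K, F k g x) ?_,
        Set.mem_insert _ _⟩
      refine Or.inl ⟨insert (Th univ k) (F k '' Set.Iic K),
        ((Set.finite_Iic K).image _).insert _, ?_, ?_⟩
      · rintro g' (rfl | ⟨g, hg, rfl⟩)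
        · exact h1 (h45 (h34 (hthu k (by have := hRN k hk; omega))))
        · exact h1 (h45 (hF k hk g hg))
      · funext x
        refine propext ⟨?_, fun h3 => ⟨h3 _ (Or.inl rfl), fun g hg => h3 _ (Or.inr ⟨g, hg, rfl⟩)⟩⟩
        rintro ⟨h3, h4⟩ g' (rfl | ⟨g, hg, rfl⟩)
        · exact h3
        · exact h4 g hg)
    hR5
  -- the inverter
  obtain ⟨d, hd⟩ : ∃ d, d = B.card := ⟨_, rfl⟩
  set e := B.orderEmbOfFin hd.symm with he
  have heB : ∀ i, e i ∈ B := fun i => B.orderEmbOfFin_mem hd.symm i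
  obtain ⟨y, hy⟩ : ∃ y : ℕ → BF V, y = fun k => if hk : k < d then G (e ⟨k, hk⟩)
    else fun _ => False := ⟨_, rfl⟩
  have hy1 : ∀ k (hk : k < d), y k = G (e ⟨k, hk⟩) := by
    intro k hk
    rw [hy]
    simp only [dif_pos hk]
  have hy2 : ∀ k, ¬ k < d → y k = fun _ => False := by
    intro k hk
    rw [hy]
    simp only [dif_neg hk]
  have hf6 : (fun _ => False : BF V) ∈ T6 := h56 (h45 (h34 (h23 hf2)))
  have hyT : ∀ k, y k ∈ T6 := by
    intro k
    by_cases hk : k < d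
    · rw [hy1 k hk]
      exact h56 (hG _ (hBR (heB _)))
    · rw [hy2 k hk]
      exact hf6
  have hanti : ∀ i j, i ≤ j → ∀ x, y j x → y i x := by
    intro i j hij x hx
    rcases hij.eq_or_lt with rfl | hij
    · exact hx
    by_cases hj : j < d
    · have hi : i < d := by omega
      rw [hy1 j hj] at hx
      rw [hy1 i hi]
      have h1 : e ⟨j, hj⟩ ≤ wt x := by
        by_contra h2
        exact (hGs _ (hBR (heB _)) x).1 (not_le.1 h2) hx
      have h2 : e ⟨i, hi⟩ < e ⟨j, hj⟩ := e.strictMono (by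
        show i < j
        exact hij)
      exact (hGs _ (hBR (heB _)) x).2.2 (h2.trans_le h1)
    · rw [hy2 j hj] at hx
      exact hx.elim
  obtain ⟨T7, h67, hR7, hneg⟩ := Reach.inv h y d (hd ▸ hBh) hanti hyT hf6
    (fun i hi => hy2 i (by omega)) hR6
  have hnegB : ∀ b ∈ B, (fun x => ¬ G b x) ∈ T7 := by
    intro b hb
    obtain ⟨i, hi⟩ : ∃ i : Fin d, e i = b := by
      have h1 : b ∈ Set.range (B.orderEmbOfFin hd.symm) := by
        rw [range_orderEmbOfFin]
        exact hb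
      exact h1
    have h1 := hneg i.1 i.2
    rw [hy1 i.1 i.2] at h1
    rw [← hi]
    exact h1
  -- the terms
  obtain ⟨NG, hNG⟩ : ∃ NG : ℕ → BF V, NG = fun k => if hk : (B.filter fun b => k < b).Nonempty then
    (fun x => ¬ G ((B.filter fun b => k < b).min' hk) x) else fun _ => True := ⟨_, rfl⟩
  obtain ⟨t, ht⟩ : ∃ t : ℕ → BF V, t = fun k => if k ∈ B then (fun x => Th univ k x ∧ ¬ G k x)
    else fun x => (Th univ k x ∧ ∀ g ≤ K, F k g x) ∧ NG k x := ⟨_, rfl⟩
  have hNGT : ∀ k, NG k ∈ T7 := by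
    intro k
    rw [hNG]
    by_cases hk : (B.filter fun b => k < b).Nonempty
    · simp only [dif_pos hk]
      exact hnegB _ (mem_filter.1 (min'_mem _ hk)).1
    · simp only [dif_neg hk]
      exact h67 (h56 (h45 (h34 (h23 ht2))))
  obtain ⟨T8, h78, hR8, hterm⟩ := Reach.family (T := T7) R 1
    (fun k T => t k ∈ T)
    (fun m T₁ T₂ h1 h2 => h1 h2)
    (by
      intro k hk s T₁ h1 h2
      refine ⟨_, Set.subset_insert _ _, h2.one (f := t k) ?_, Set.mem_insert _ _⟩
      rw [ht]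
      by_cases hkB : k ∈ B
      · simp only [if_pos hkB]
        exact oneGate_and (h1 (h67 (h56 (h45 (h34 (hthu k (by have := hRN k hk; omega)))))))
          (h1 (hnegB k hkB))
      · simp only [if_neg hkB]
        exact oneGate_and (h1 (h67 (hwin k hk))) (h1 (hNGT k)))
    hR7
  obtain ⟨s', hs', D', hD', hacc⟩ := hR8.circuit (f := fun x => ∃ k ∈ R, t k x) (by
      refine Or.inr ⟨t '' (R : Set ℕ), R.finite_toSet.image t, ?_, ?_⟩
      · rintro g ⟨k, hk, rfl⟩
        exact hterm k hk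
      · funext x
        refine propext ⟨?_, ?_⟩
        · rintro ⟨k, hk, h1⟩
          exact ⟨_, ⟨k, hk, rfl⟩, h1⟩
        · rintro ⟨g, ⟨k, hk, rfl⟩, h1⟩
          exact ⟨k, hk, h1⟩)
  refine ⟨s', ?_, D', hD'.trans (by omega), fun x hx => ?_⟩
  · refine hs'.trans ?_
    have h1 := card_small (V := V) (K + 1)
    rw [hN] at h1
    have h2 : (small V (K + 1)).card * (N * (2 * (N + 1 + 1))) ≤
        (N + 1) ^ (K + 1) * (N * (2 * (N + 1 + 1))) := Nat.mul_le_mul_right _ h1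
    unfold cost
    rw [← hd]
    omega
  rw [hacc]
  -- correctness
  set l := wt x with hl
  have hG1 : ∀ b ∈ B, (b < l → G b x) ∧ (l = b → (G b x ↔ ¬ f x)) ∧ (l < b → ¬ G b x) := by
    intro b hb
    obtain ⟨h1, h2, h3⟩ := hGs b (hBR hb) x
    exact ⟨h3, h2, h1⟩
  have hNG1 : ∀ k, (∀ b ∈ B, ¬ (k < b ∧ b ≤ l)) → NG k x := by
    intro k hk
    rw [hNG]
    by_cases h1 : (B.filter fun b => k < b).Nonempty
    · simp only [dif_pos h1]
      have h2 := min'_mem _ h1
      set c := (B.filter fun b => k < b).min' h1 with hc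
      obtain ⟨h3, h4⟩ := mem_filter.1 h2
      refine (hG1 c h3).2.2 ?_
      by_contra h5
      exact hk c h3 ⟨h4, not_lt.1 h5⟩
    · simp only [dif_neg h1]
  have hNG2 : ∀ k, NG k x → ∀ b ∈ B, k < b → b ≤ l → b = l ∧ f x := by
    intro k hk b hb hkb hbl
    rw [hNG] at hk
    have h1 : (B.filter fun b => k < b).Nonempty := ⟨b, mem_filter.2 ⟨hb, hkb⟩⟩
    simp only [dif_pos h1] at hk
    have h2 := min'_mem _ h1
    have h3 := min'_le _ b (mem_filter.2 ⟨hb, hkb⟩)
    set c := (B.filter fun b => k < b).min' h1 with hc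
    obtain ⟨h4, h5⟩ := mem_filter.1 h2
    have h6 : l ≤ c := by
      by_contra h7
      exact hk ((hG1 c h4).1 (not_le.1 h7))
    have h7 : l = c := le_antisymm h6 (h3.trans hbl)
    refine ⟨by omega, ?_⟩
    by_contra h8
    exact hk (((hG1 c h4).2.1 h7).2 h8)
  have ht1 : ∀ k ∈ B, (t k x ↔ k ≤ l ∧ ¬ G k x) := by
    intro k hk
    rw [ht]
    simp only [if_pos hk]
    rw [Th_univ]
  have ht2' : ∀ k, k ∉ B → (t k x ↔ (k ≤ l ∧ ∀ g ≤ K, F k g x) ∧ NG k x) := by
    intro k hk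
    rw [ht]
    simp only [if_neg hk]
    rw [Th_univ]
  constructor
  · rintro ⟨k, hk, h1⟩
    by_cases hkB : k ∈ B
    · rw [ht1 k hkB] at h1
      obtain ⟨h2, h3⟩ := h1
      rcases h2.eq_or_lt with h4 | h4
      · by_contra h5
        exact h3 (((hG1 k hkB).2.1 h4.symm).2 h5)
      · exact absurd ((hG1 k hkB).1 h4) h3
    · rw [ht2' k hkB] at h1
      obtain ⟨⟨h2, h3⟩, h4⟩ := h1
      by_contra h5
      have h6 : ∀ b ∈ B, ¬ (k < b ∧ b ≤ l) := by
        rintro b hb ⟨h7, h8⟩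
        exact h5 (hNG2 k h4 b hb h7 h8).2
      have h7 : l ≤ k + K := by
        rcases h2.eq_or_lt with h8 | h8
        · omega
        · refine hB k hk l hx h8 ?_
          rintro b hb ⟨h9, h10⟩
          rcases h9.eq_or_lt with h11 | h11
          · exact hkB (h11 ▸ hb)
          · exact h6 b hb ⟨h11, h10⟩
      refine (hFs k hk (l - k) (by omega)).2 x ?_ ?_ (h3 (l - k) (by omega))
      · rw [del_empty]
        omega
      · rw [del_empty]
        exact h5
  · intro h1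
    refine ⟨l, hx, ?_⟩
    by_cases hlB : l ∈ B
    · rw [ht1 l hlB]
      exact ⟨le_rfl, fun h2 => ((hG1 l hlB).2.1 rfl).1 h2 h1⟩
    · rw [ht2' l hlB]
      refine ⟨⟨le_rfl, fun g hg => (hFs l hx g hg).1 x ?_ ?_⟩, hNG1 l ?_⟩
      · rw [del_empty]
      · rw [del_empty]
        exact h1
      · rintro b hb ⟨h2, h3⟩
        omega

end Pool.Agent.SliceCircuits
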