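import Mathlib
import Pool.Agent.Lib.MP_0a1b52_lc_SLICE2.Up3
import Pool.Agent.Lib.MP_0a1b52_lc_SLICE.Asym

/-!
The upper bound for the clique function, and Q1.
-/

namespace Pool.Agent.SliceCircuits

open Finset

theorem cost_le (N K s₀ r d h Y : ℕ) (hX : N + 2 ≤ Y) (hs : s₀ ≤ Y) (hr : r ≤ N + 1) (hd : d ≤ r)
    (hh : h ≤ d) : cost N K s₀ r d h ≤ (2 * K + 30) * Y ^ (K + 3) := by
  obtain ⟨P, hP⟩ : ∃ P, P = Y ^ K := ⟨_, rfl⟩
  have hY2 : 2 ≤ Y := by omega
  have hP1 : 1 ≤ P := by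
    rw [hP]
    exact Nat.one_le_pow _ _ (by omega)
  have h1 : (N + 1) ^ K ≤ P := by
    rw [hP]
    exact Nat.pow_le_pow_left (by omega) K
  have h2 : (N + 1) ^ (K + 1) ≤ P * Y := by
    rw [pow_succ]
    exact Nat.mul_le_mul h1 (by omega)
  obtain ⟨Q, hQ⟩ : ∃ Q, Q = P * (Y * (Y * Y)) := ⟨_, rfl⟩
  have hQ1 : Y ^ (K + 3) = Q := by
    rw [hQ, hP]
    ring
  have t1 : (N + 1) ^ (K + 1) * (N * (2 * (N + 1 + 1))) ≤ 2 * Q := by
    calc (N + 1) ^ (K + 1) * (N * (2 * (N + 1 + 1))) ≤ (P * Y) * (Y * (2 * Y)) :=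
          Nat.mul_le_mul h2 (Nat.mul_le_mul (by omega) (by omega))
      _ = 2 * Q := by rw [hQ]; ring
  have hYY : Y ≤ Y * Y := Nat.le_mul_self Y
  have hYYY : Y * Y ≤ Y * (Y * Y) := Nat.mul_le_mul_left Y hYY
  have hQ3 : Y * (Y * Y) ≤ Q := by
    rw [hQ]
    exact Nat.le_mul_of_pos_left _ hP1
  have t2 : r * ((N + 1) ^ K * (2 * s₀) + K * ((N + 1) ^ K * (N * (2 * (N + 1))))) ≤
      2 * Q + 2 * K * Q := by
    calc r * ((N + 1) ^ K * (2 * s₀) + K * ((N + 1) ^ K * (N * (2 * (N + 1))))) ≤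
        Y * (P * (2 * Y) + K * (P * (Y * (2 * Y)))) :=
          Nat.mul_le_mul (by omega) (Nat.add_le_add (Nat.mul_le_mul h1 (by omega))
            (Nat.mul_le_mul_left _ (Nat.mul_le_mul h1 (Nat.mul_le_mul (by omega) (by omega)))))
      _ = 2 * (P * (Y * Y)) + 2 * K * (P * (Y * (Y * Y))) := by ring
      _ ≤ 2 * (P * (Y * (Y * Y))) + 2 * K * (P * (Y * (Y * Y))) :=
          Nat.add_le_add_right (Nat.mul_le_mul_left _ (Nat.mul_le_mul_left _ hYYY)) _
      _ = 2 * Q + 2 * K * Q := by rw [hQ]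
  have t3 : r * (2 * s₀ + 4) ≤ 6 * Q := by
    calc r * (2 * s₀ + 4) ≤ Y * (6 * Y) := Nat.mul_le_mul (by omega) (by omega)
      _ = 6 * (Y * Y) := by ring
      _ ≤ 6 * Q := Nat.mul_le_mul_left _ (hYYY.trans hQ3)
  have t4 : (2 * d + 1) * h ≤ 3 * Q := by
    calc (2 * d + 1) * h ≤ (3 * Y) * Y := Nat.mul_le_mul (by omega) (by omega)
      _ = 3 * (Y * Y) := by ring
      _ ≤ 3 * Q := Nat.mul_le_mul_left _ (hYYY.trans hQ3)
  have t5 : r ≤ Q := by omega
  have t6 : 2 ≤ Q := by omega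
  have t7 : (2 * K + 30) * Q = 2 * K * Q + 30 * Q := by ring
  rw [hQ1, t7]
  unfold cost
  omega

theorem mon_clq (n : ℕ) : Mon (clq n) := by
  intro x y hxy hx
  obtain ⟨K, hK, hc⟩ := hx
  refine ⟨K, hK.mono ?_, hc⟩
  intro u v huv
  rcases huv with ⟨h1, h2⟩ | ⟨h1, h2⟩
  · exact Or.inl ⟨h1, hxy _ h2⟩
  · exact Or.inr ⟨h1, hxy _ h2⟩

/-- The upper bound: a circuit which is correct on a set `R` of slices without long chains of drops
can be transformed into one with few NOT gates. -/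
theorem upper2 (K n s : ℕ) (D : Circuit (EdgeVar n) s) (R : Finset ℕ) (h : ℕ)
    (hD : D.CorrectOn R) (hR : ¬ Drops (K + 1) R (2 ^ h)) :
    ∃ s' ≤ (2 * K + 30) * 2 ^ (K + 3) * (n + s) ^ (2 * K + 6),
      ∃ D' : Circuit (EdgeVar n) s', D'.numNot ≤ h ∧ D'.CorrectOn R := by
  classical
  have hs : 1 ≤ s := by
    have := D.out.2
    omega
  rw [correctOn_iff] at hD
  set R' := R.filter fun m => m ≤ n.choose 2 with hR'
  have hsub : R' ⊆ R := filter_subset _ _
  have hcard2 : R'.card ≤ n.choose 2 + 1 := by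
    have h1 : R' ⊆ range (n.choose 2 + 1) := by
      intro m hm
      have := (mem_filter.1 hm).2
      exact mem_range.2 (by omega)
    have h2 := card_le_card h1
    rw [card_range] at h2
    exact h2
  obtain ⟨B, hBR, hdrop, hB⟩ := exists_cuts K R'
  have hBh : B.card < 2 ^ h := by
    by_contra h1
    exact hR ((hdrop.mono_R hsub).mono_d (not_lt.1 h1))
  have hBh' : B.card < 2 ^ min h B.card := by
    rcases le_total h B.card with h1 | h1
    · rw [min_eq_left h1]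
      exact hBh
    · rw [min_eq_right h1]
      exact Nat.lt_two_pow_self
  obtain ⟨s', hs', D', hD', hacc⟩ := upper2_core D (mon_clq n) R' B K (min h B.card) (n.choose 2)
    (card_var n) (fun m hm => (mem_filter.1 hm).2)
    (fun x hx => hD x (mem_coe.2 (hsub hx))) hBR hB hBh'
  refine ⟨s', ?_, D', hD'.trans (min_le_left _ _), ?_⟩
  · have h2 := CliqueModules.two_mul_choose_two_le n
    refine (hs'.trans (cost_le (n.choose 2) K s R'.card B.card (min h B.card)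
      (2 * ((n + s) * (n + s))) ?_ ?_ hcard2 (card_le_card hBR) (min_le_right _ _))).trans ?_
    · have h3 : n * n + 1 ≤ (n + s) * (n + s) := by nlinarith
      omega
    · nlinarith
    · refine le_of_eq ?_
      have h3 : (n + s) ^ (2 * K + 6) = ((n + s) * (n + s)) ^ (K + 3) := by
        rw [← pow_two, ← pow_mul]
        congr 1
      rw [h3, mul_pow]
      ring
  · rw [correctOn_iff]
    intro x hx
    exact hacc x (mem_filter.2 ⟨mem_coe.1 hx, wt_le_choose x⟩)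

/-- Polynomial size circuits on a set of slices which contains a central one imply that Q1 is
false. -/
theorem self_asym' (R : ℕ → Finset ℕ)
    (hR : ∃ n₀ : ℕ, ∀ n ≥ n₀, ∃ a ∈ R n, n ≤ a ∧ a + n * Nat.sqrt n ≤ n.choose 2)
    (h : ℕ → ℕ) (hP : PolySizeOn R h) : PolyAll := by
  obtain ⟨k, N, hk⟩ := hP
  obtain ⟨n₀, h0⟩ := hR
  obtain ⟨K, hK⟩ : ∃ K, K = n₀ + N + 16 := ⟨_, rfl⟩
  refine ⟨(4 + K) * (2 * (10 + (k + 2) * 2)) + 2 * (10 + (k + 2) * 2), 2, fun m hm => ?_⟩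
  obtain ⟨n, hn⟩ : ∃ n, n = (4 * m + K) * (4 * m + K) := ⟨_, rfl⟩
  have hsq : Nat.sqrt n = 4 * m + K := by
    rw [hn]
    exact Nat.sqrt_eq _
  have hnK : 4 * m + K ≤ n := by
    rw [hn]
    exact Nat.le_mul_self _
  obtain ⟨s, hs, D, -, hD⟩ := hk n (by omega)
  obtain ⟨a, ha, h1, h2⟩ := h0 n (by omega)
  have hu16 : 16 ≤ Nat.sqrt n := by
    rw [hsq]
    omega
  have hu4 : 4 * m ≤ Nat.sqrt n := by
    rw [hsq]
    omega
  obtain ⟨s', hs', D', hD'⟩ := self_reduction n s D a m hu16 hu4 h1 h2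
    (fun G hG => hD G (by rw [Set.mem_singleton_iff.1 hG]; exact mem_coe.2 ha))
  refine ⟨s', ?_, D', hD'⟩
  have h3 : s' ≤ n ^ (10 + (k + 2) * 2) := hs'.trans (poly_bound 10 k n s 2 (by omega) hs)
  have h4 : 4 * m + K ≤ m ^ (4 + K) * m := by
    have h5 : 4 + K ≤ m ^ (4 + K) := (Nat.lt_pow_self (by omega)).le
    calc 4 * m + K ≤ 4 * m + K * m := by
          have : K ≤ K * m := Nat.le_mul_of_pos_right _ (by omega)
          omega
      _ = (4 + K) * m := by ring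
      _ ≤ _ := Nat.mul_le_mul_right _ h5
  have h5 : n ≤ (m ^ (4 + K) * m) ^ 2 := by
    rw [hn, pow_two]
    exact Nat.mul_le_mul h4 h4
  calc s' ≤ n ^ (10 + (k + 2) * 2) := h3
    _ ≤ ((m ^ (4 + K) * m) ^ 2) ^ (10 + (k + 2) * 2) := Nat.pow_le_pow_left h5 _
    _ = m ^ ((4 + K) * (2 * (10 + (k + 2) * 2)) + 2 * (10 + (k + 2) * 2)) := by
        rw [← pow_mul, mul_pow, ← pow_mul, ← pow_add]

theorem upper2_asym (K : ℕ) (R : ℕ → Finset ℕ) (h : ℕ → ℕ) (hP : PolyAll)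
    (hh : ∃ n₀ : ℕ, ∀ n ≥ n₀, ¬ Drops (K + 1) (R n) (2 ^ h n)) : PolySizeOn R h := by
  obtain ⟨k, N, hk⟩ := hP
  obtain ⟨n₀, h0⟩ := hh
  refine ⟨(2 * K + 30) * 2 ^ (K + 3) + (k + 2) * (2 * K + 6), n₀ + N + 2, fun n hn => ?_⟩
  obtain ⟨s, hs, D, hD⟩ := hk n (by omega)
  obtain ⟨s', hs', D', hD1, hD2⟩ := upper2 K n s D (R n) (h n)
    (fun G _ => hD G (Set.mem_univ _)) (h0 n (by omega))
  exact ⟨s', hs'.trans (poly_bound _ k n s _ (by omega) hs), D', hD1, hD2⟩

/-- If `R n` has no chain of `2 ^ h n` drops of height more than `K`, circuits of polynomial size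
with `h n` NOT gates which are correct on `R n` exist if and only if Q1 is false. -/
theorem iff_not_Q1 (K : ℕ) (R : ℕ → Finset ℕ) (h : ℕ → ℕ)
    (hR : ∃ n₀ : ℕ, ∀ n ≥ n₀, ¬ Drops (K + 1) (R n) (2 ^ h n) ∧
      ∃ a ∈ R n, n ≤ a ∧ a + n * Nat.sqrt n ≤ n.choose 2) : PolySizeOn R h ↔ ¬ Q1 := by
  obtain ⟨n₀, h0⟩ := hR
  exact ⟨fun hP => not_Q1_of_polyAll (self_asym' R ⟨n₀, fun n hn => (h0 n hn).2⟩ h hP),
    fun hQ => upper2_asym K R h (polyAll_of_not_Q1 hQ) ⟨n₀, fun n hn => (h0 n hn).1⟩⟩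

/-- Drops in an interval of slices. -/
theorem drops_range {g N d : ℕ} (h : Drops g (range N) d) : (g + 1) * d ≤ N := by
  obtain ⟨a, b, h1, h2⟩ := h
  rcases Nat.eq_zero_or_pos d with rfl | hd
  · simp
  have key : ∀ i, i < d → (g + 1) * (i + 1) ≤ b i + 1 := by
    intro i
    induction i with
    | zero =>
      intro hi
      have := (h1 0 hi).2.2
      omega
    | succ i ih =>
      intro hi
      have h3 := ih (by omega)
      have h4 := h2 i hi
      have h5 := (h1 (i + 1) hi).2.2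
      have h6 : (g + 1) * (i + 1 + 1) = (g + 1) * (i + 1) + (g + 1) := by ring
      omega
  have h3 := key (d - 1) (by omega)
  have h4 := mem_range.1 (h1 (d - 1) (by omega)).2.1
  rw [show d - 1 + 1 = d by omega] at h3
  omega

/-- All slices: for each constant `c`, Q1 is equivalent to the lower bound for circuits with
`log₂ N - c` NOT gates. -/
theorem all_slices (c : ℕ) :
    PolySizeOn (fun n => range (n.choose 2 + 1)) (fun n => Nat.log 2 (n.choose 2) - c) ↔ ¬ Q1 := by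
  refine iff_not_Q1 (2 ^ (c + 1)) _ _ ⟨2 ^ (c + 4) + 16, fun n hn => ?_⟩
  have hn16 : 16 ≤ n := le_trans (Nat.le_add_left _ _) hn
  refine ⟨fun hd => ?_, ?_⟩
  · have h1 := drops_range hd
    have hN : 2 ^ (c + 1) ≤ n.choose 2 := by
      have h2 : n ≤ n.choose 2 := by
        have h3 := Nat.choose_two_right n
        have h4 : n * 2 ≤ n * (n - 1) := Nat.mul_le_mul_left _ (by omega)
        omega
      have h3 : 2 ^ (c + 1) ≤ 2 ^ (c + 4) := Nat.pow_le_pow_right (by norm_num) (by omega)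
      have h4 : 2 ^ (c + 4) ≤ n := le_trans (Nat.le_add_right _ _) hn
      exact h3.trans (h4.trans h2)
    have hN1 : n.choose 2 < 2 ^ (Nat.log 2 (n.choose 2) + 1) := Nat.lt_pow_succ_log_self (by norm_num) _
    have hlog : c + 1 ≤ Nat.log 2 (n.choose 2) := Nat.le_log_of_pow_le (by norm_num) hN
    have h2 : 2 ^ (Nat.log 2 (n.choose 2) + 1) =
        2 ^ (c + 1) * 2 ^ (Nat.log 2 (n.choose 2) - c) := by
      rw [← pow_add]
      congr 1
      omega
    have h3 : (2 ^ (c + 1) + 1 + 1) * 2 ^ (Nat.log 2 (n.choose 2) - c) =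
        2 ^ (c + 1) * 2 ^ (Nat.log 2 (n.choose 2) - c) +
          2 * 2 ^ (Nat.log 2 (n.choose 2) - c) := by ring
    have h4 : 1 ≤ 2 ^ (Nat.log 2 (n.choose 2) - c) := Nat.one_le_two_pow
    omega
  · refine ⟨n, mem_range.2 ?_, le_rfl, ?_⟩
    · have h3 := Nat.choose_two_right n
      have h4 : n * 2 ≤ n * (n - 1) := Nat.mul_le_mul_left _ (by omega)
      omega
    · have h3 := Nat.choose_two_right n
      have h4 : Nat.sqrt n * 4 ≤ n := by
        have h5 := Nat.sqrt_le n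
        have h6 : 4 ≤ Nat.sqrt n := Nat.le_sqrt.2 (by omega)
        calc Nat.sqrt n * 4 ≤ Nat.sqrt n * Nat.sqrt n := Nat.mul_le_mul_left _ h6
          _ ≤ n := h5
      have h5 : n * Nat.sqrt n * 4 ≤ n * n := by
        rw [mul_assoc]
        exact Nat.mul_le_mul_left _ h4
      have h6 : n * (n - 1) + n = n * n := by
        have : n - 1 + 1 = n := by omega
        calc n * (n - 1) + n = n * (n - 1 + 1) := by ring
          _ = n * n := by rw [this]
      have h7 : n * 16 ≤ n * n := Nat.mul_le_mul_left _ hn16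
      have h8 : n * (n - 1) / 2 * 2 + 1 ≥ n * (n - 1) := by omega
      rw [h3]
      omega

end Pool.Agent.SliceCircuits
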