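import Mathlib
import Pool.Agent.Lib.MP_0a1b52_lc_SLICE2.Up4

/-!
Circuits without NOT gates which separate the graphs with `a` edges and a clique from the graphs
with `b` edges and without one.
-/

namespace Pool.Agent.SliceCircuits

open Finset Pool.Agent

/-- `D` accepts all graphs with `a` edges and a clique with more than `√n` vertices, and rejects all
graphs with `b` edges and without such cliques. -/
def Circuit.Separates {n s : ℕ} (D : Circuit (EdgeVar n) s) (a b : ℕ) : Prop :=
  ∀ G : SimpleGraph (Fin n),
    (G.edgeSet.ncard = a → HasClique G → D.Accepts (fun e => G.Adj e.1.1 e.1.2)) ∧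
    (G.edgeSet.ncard = b → ¬ HasClique G → ¬ D.Accepts (fun e => G.Adj e.1.1 e.1.2))

/-- Circuits without NOT gates are monotone. -/
theorem Circuit.mono_of_numNot {V : Type} {s : ℕ} (D : Circuit V s) (hD : D.numNot = 0)
    {x y : V → Prop} (hxy : ∀ v, x v → y v) (h : D.Accepts x) : D.Accepts y := by
  classical
  have hn : ∀ i w, D.gate i ≠ Gate.not w := by
    intro i w hw
    unfold Circuit.numNot at hD
    rw [card_eq_zero] at hD
    have : i ∈ (univ.filter fun i => ∃ w, D.gate i = Gate.not w) :=
      mem_filter.2 ⟨mem_univ _, w, hw⟩
    rw [hD] at this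
    exact notMem_empty _ this
  obtain ⟨val, hval, hout⟩ := h
  obtain ⟨val', hval'⟩ := D.exists_eval y
  refine ⟨val', hval', ?_⟩
  have key : ∀ k, ∀ i : Fin s, i.1 < k → val i → val' i := by
    intro k
    induction k with
    | zero => intro i hi; omega
    | succ k ih =>
      intro i hi hv
      have h1 := (hval i).1 hv
      rw [hval' i]
      have hw : ∀ w ∈ (D.gate i).wires, Sum.elim x val w → Sum.elim y val' w := by
        intro w hw h2
        cases w with
        | inl v => exact hxy v h2
        | inr j =>
          have h3 := D.acyclic i j hw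
          refine ih j ?_ h2
          have : j.1 < i.1 := h3
          omega
      cases hg : D.gate i with
      | and J =>
        rw [hg] at h1 hw
        exact fun w hJ => hw w hJ (h1 w hJ)
      | or J =>
        rw [hg] at h1 hw
        obtain ⟨w, hJ, h2⟩ := h1
        exact ⟨w, hJ, hw w hJ h2⟩
      | not w => exact absurd hg (hn i w)
  exact key (D.out.1 + 1) D.out (by omega) hout

/-- A monotone circuit which separates the slice `a` from the slice `b` gives a circuit for the
clique function on fewer vertices. -/
theorem self_reduction_sep (n s : ℕ) (D : Circuit (EdgeVar n) s) (a b m : ℕ)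
    (hu : 16 ≤ Nat.sqrt n) (hm : 4 * m ≤ Nat.sqrt n) (h1 : n ≤ a) (hab : a ≤ b)
    (h2 : b + n * Nat.sqrt n ≤ n.choose 2) (hN : D.numNot = 0) (hD : D.Separates a b) :
    ∃ s' ≤ 10 * (n + s) ^ 2, ∃ D' : Circuit (EdgeVar m) s', D'.CorrectOn Set.univ := by
  classical
  have hs : 1 ≤ s := by
    have := D.out.2
    omega
  obtain ⟨t, hmn, ht, hmt, hsq, hmn', hlo, hhi⟩ := self_params n m hu hm
  have hmin := CliqueModules.card_outMin (n0 := m) (n := n) (t := t) hmt
  have hmax := hhi b h2
  obtain ⟨s', hs', D', hD'⟩ := glue (s₀ := s) (card_var m) (clq m) (by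
    intro e he s₁ T hv ht' hf' hR
    obtain ⟨Fo, hF1, hF2, hF3⟩ : ∃ Fo : Finset (CliqueModules.EdgeVar n),
        CliqueModules.outMin m n t ⊆ Fo ∧ Fo ⊆ CliqueModules.outMax m n t ∧ Fo.card = a - e :=
      exists_subsuperset_card_eq (CliqueModules.outMin_subset m n t) (by omega) (by omega)
    obtain ⟨Fo', hF4, hF5, hF6⟩ : ∃ Fo' : Finset (CliqueModules.EdgeVar n),
        Fo ⊆ Fo' ∧ Fo' ⊆ CliqueModules.outMax m n t ∧ Fo'.card = b - e :=
      exists_subsuperset_card_eq hF2 (by omega) (by omega)
    obtain ⟨T₁, h3, h4, h5⟩ := hR.subst_accepts D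
      (fun x => CliqueModules.lift (CliqueModules.padProj m Fo) (graph x)) (by
        intro w
        show (fun x => CliqueModules.lift (CliqueModules.padProj m Fo) (graph x) w) ∈ T
        cases hw : CliqueModules.padProj m Fo w with
        | inl e' =>
          have h6 : (fun x : EdgeVar m → Prop =>
              CliqueModules.lift (CliqueModules.padProj m Fo) (graph x) w) = fun x => x e' := by
            funext x
            unfold CliqueModules.lift
            rw [hw]
            exact propext (CliqueModules.toGraph_adj x e')
          rw [h6]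
          exact hv e'
        | inr p =>
          have h6 : (fun x : EdgeVar m → Prop =>
              CliqueModules.lift (CliqueModules.padProj m Fo) (graph x) w) = fun _ => p := by
            funext x
            unfold CliqueModules.lift
            rw [hw]
            rfl
          rw [h6]
          by_cases hp : p
          · simp only [hp]
            exact ht'
          · simp only [hp]
            exact hf')
    refine ⟨T₁, h3, h4, _, h5, fun x hx => ?_⟩
    have hcl := CliqueModules.hasClique_pad hmn ht hmt hsq Fo hF1 hF2 (graph x)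
    have hcl' := CliqueModules.hasClique_pad hmn ht hmt hsq Fo' (hF1.trans hF4) hF5 (graph x)
    constructor
    · intro hacc
      by_contra hcon
      have h6 : (CliqueModules.pad Fo' (graph x)).edgeSet.ncard = b := by
        rw [CliqueModules.card_pad hmn Fo', ← CliqueModules.ncard_edgeSet, ← wt_graph, hx, hF6]
        · omega
        · intro e' he'
          exact (mem_filter.1 (hF5 he')).2.1
      have h7 := (hD (CliqueModules.pad Fo' (graph x))).2 h6 (fun h8 => hcon (hcl'.1 h8))
      rw [CliqueModules.pad_asg] at h7
      refine h7 (D.mono_of_numNot hN ?_ hacc)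
      intro w hw
      unfold CliqueModules.lift CliqueModules.padProj at hw ⊢
      by_cases hin : w.1.2.val < m
      · simpa [hin] using hw
      · simp only [hin] at hw ⊢
        exact hF4 hw
    · intro hx'
      have h6 : (CliqueModules.pad Fo (graph x)).edgeSet.ncard = a := by
        rw [CliqueModules.card_pad hmn Fo, ← CliqueModules.ncard_edgeSet, ← wt_graph, hx, hF3]
        · omega
        · intro e' he'
          exact (mem_filter.1 (hF2 he')).2.1
      have h7 := (hD (CliqueModules.pad Fo (graph x))).1 h6 (hcl.2 hx')
      rw [CliqueModules.pad_asg] at h7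
      exact h7)
  refine ⟨s', hs'.trans ?_, D', ?_⟩
  · set N := m.choose 2 with hN
    set P := n + s with hP
    have h3 : N * (2 * (N + 1 + 1)) ≤ P * (4 * P) := Nat.mul_le_mul (by omega) (by omega)
    have h4 : (N + 1) * s ≤ P * P := Nat.mul_le_mul (by omega) (by omega)
    have h5 : P ≤ P * P := Nat.le_mul_self P
    have h6 : 10 * P ^ 2 = 10 * (P * P) := by ring
    have h7 : P * (4 * P) = 4 * (P * P) := by ring
    have h8 : 1 ≤ P := by omega
    rw [h6]
    rw [h7] at h3
    omega
  · rw [correctOn_iff]
    intro x _
    exact hD' x

end Pool.Agent.SliceCircuits
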