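import Mathlib
import Pool.Agent.Lib.MP_0a1b52_lc_SLICE2.Up4

/-!
The asymptotic form for clustered sets of slices.
-/

namespace Pool.Agent.SliceCircuits

open Finset

/-- The statement of the lower bound. -/
def Lower2 : Prop := ∃ C : ℕ, ∀ (n s : ℕ) (D : Circuit (EdgeVar n) s) (R : Finset ℕ) (d : ℕ),
  C * (Nat.log 2 (n * s) + 1) ^ 8 ≤ Nat.sqrt n →
  Drops (C * (Nat.log 2 (n * s) + 1) ^ 4) R d →
  (∀ a ∈ R, n + C * d * (Nat.log 2 (n * s) + 1) ^ 8 ≤ a ∧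
    a + n * Nat.sqrt n + C * d * (Nat.log 2 (n * s) + 1) ^ 8 ≤ n.choose 2) →
  D.CorrectOn R → d < 2 ^ D.numNot

theorem Drops.card_le {g : ℕ} (hg : 1 ≤ g) {R : Finset ℕ} {d : ℕ} (h : Drops g R d) :
    d ≤ R.card := by
  classical
  obtain ⟨a, b, h1, h2⟩ := h
  have hmono : ∀ j i, i < j → j < d → a i < a j := by
    intro j
    induction j with
    | zero => intro i hi; omega
    | succ j ih =>
      intro i hi hj
      have h3 := (h1 j (by omega)).2.2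
      have h4 := h2 j hj
      rcases Nat.lt_succ_iff_lt_or_eq.1 hi with h5 | rfl
      · have := ih i h5 (by omega)
        omega
      · omega
  have h3 : (range d).image a ⊆ R := by
    intro m hm
    obtain ⟨i, hi, rfl⟩ := mem_image.1 hm
    exact (h1 i (mem_range.1 hi)).1
  have h4 : ((range d).image a).card = d := by
    rw [card_image_of_injOn, card_range]
    intro i hi j hj hij
    rw [coe_range, Set.mem_Iio] at hi hj
    rcases lt_trichotomy i j with h5 | h5 | h5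
    · have := hmono j i h5 hj
      omega
    · exact h5
    · have := hmono i j h5 hi
      omega
  rw [← h4]
  exact Finset.card_le_card h3

theorem lower2_asym (hL : Lower2) (K : ℕ) (R : ℕ → Finset ℕ) (hR : Clustered K R) (h : ℕ → ℕ)
    (hP : PolySizeOn R h) : ∃ n₀ : ℕ, ∀ n ≥ n₀, ¬ Drops (K + 1) (R n) (2 ^ h n) := by
  obtain ⟨C, hC⟩ := hL
  obtain ⟨k, N, hk⟩ := hP
  obtain ⟨n₁, h1⟩ := hR (C * (2 * k + 2) ^ 8)
  obtain ⟨n₂, h2⟩ := log_pow_le_sqrt (C * (2 * k + 2) ^ 8)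
  refine ⟨n₁ + n₂ + N + 2, fun n hn hdr => ?_⟩
  have hn1 : n₁ ≤ n := by omega
  have hn2 : n₂ ≤ n := by omega
  have hn3 : 2 ≤ n := by omega
  obtain ⟨s, hs, D, hD1, hD2⟩ := hk n (by omega)
  obtain ⟨hne, hgap, hrange⟩ := h1 n hn1
  have hlog := log_size n s k hn3 hs
  set L := Nat.log 2 (n * s) + 1 with hLdef
  have hL8 : L ^ 8 ≤ (2 * k + 2) ^ 8 * Nat.log 2 n ^ 8 := by
    rw [← mul_pow]
    exact Nat.pow_le_pow_left hlog 8
  have hL4 : L ^ 4 ≤ (2 * k + 2) ^ 8 * Nat.log 2 n ^ 4 := by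
    calc L ^ 4 ≤ ((2 * k + 2) * Nat.log 2 n) ^ 4 := Nat.pow_le_pow_left hlog 4
      _ = (2 * k + 2) ^ 4 * Nat.log 2 n ^ 4 := mul_pow _ _ _
      _ ≤ _ := Nat.mul_le_mul_right _ (Nat.pow_le_pow_right (by omega) (by norm_num))
  have hcard := hdr.card_le (by omega)
  have h3 := hC n s D (R n) (2 ^ h n) ?_ ?_ ?_ hD2
  · have h4 : 2 ^ D.numNot ≤ 2 ^ h n := Nat.pow_le_pow_right (by norm_num) hD1
    omega
  · rw [← hLdef]
    calc C * L ^ 8 ≤ C * ((2 * k + 2) ^ 8 * Nat.log 2 n ^ 8) := Nat.mul_le_mul_left _ hL8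
      _ = C * (2 * k + 2) ^ 8 * Nat.log 2 n ^ 8 := by ring
      _ ≤ Nat.sqrt n := h2 n hn2
  · rw [← hLdef]
    obtain ⟨a, b, h4, h5⟩ := hdr
    refine ⟨a, b, fun i hi => ?_, h5⟩
    obtain ⟨h6, h7, h8⟩ := h4 i hi
    refine ⟨h6, h7, ?_⟩
    have h9 := hgap _ h6 _ h7 (by omega)
    have h10 : C * L ^ 4 ≤ C * (2 * k + 2) ^ 8 * Nat.log 2 n ^ 4 := by
      calc C * L ^ 4 ≤ C * ((2 * k + 2) ^ 8 * Nat.log 2 n ^ 4) := Nat.mul_le_mul_left _ hL4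
        _ = C * (2 * k + 2) ^ 8 * Nat.log 2 n ^ 4 := by ring
    omega
  · intro a ha
    obtain ⟨h4, h5⟩ := hrange a ha
    have h6 : C * 2 ^ h n * L ^ 8 ≤ C * (2 * k + 2) ^ 8 * (R n).card * Nat.log 2 n ^ 8 := by
      calc C * 2 ^ h n * L ^ 8 ≤ C * (R n).card * ((2 * k + 2) ^ 8 * Nat.log 2 n ^ 8) :=
            Nat.mul_le_mul (Nat.mul_le_mul_left _ hcard) hL8
        _ = C * (2 * k + 2) ^ 8 * (R n).card * Nat.log 2 n ^ 8 := by ring
    rw [← hLdef]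
    exact ⟨by omega, by omega⟩

/-- The dichotomy for clustered sets of slices. -/
theorem dichotomy2 (hL : Lower2) (K : ℕ) (R : ℕ → Finset ℕ) (hR : Clustered K R) (h : ℕ → ℕ) :
    PolySizeOn R h ↔ (∃ n₀ : ℕ, ∀ n ≥ n₀, ¬ Drops (K + 1) (R n) (2 ^ h n)) ∧ ¬ Q1 := by
  constructor
  · intro hP
    refine ⟨lower2_asym hL K R hR h hP, not_Q1_of_polyAll (self_asym' R ?_ h hP)⟩
    obtain ⟨n₀, h0⟩ := hR 0
    refine ⟨n₀, fun n hn => ?_⟩
    obtain ⟨⟨a, ha⟩, -, h1⟩ := h0 n hn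
    obtain ⟨h2, h3⟩ := h1 a ha
    rw [Nat.zero_mul, Nat.zero_mul, Nat.add_zero] at h2 h3
    exact ⟨a, ha, h2, h3⟩
  · rintro ⟨h1, h2⟩
    exact upper2_asym K R h (polyAll_of_not_Q1 h2) h1

end Pool.Agent.SliceCircuits
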