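import Mathlib
import Pool.Agent.Lib.MP_0a1b52_lc_SLICE2.Up4

/-!
Chains of drops in intervals.
-/

namespace Pool.Agent.SliceCircuits

open Finset

theorem not_drops_range {g N m : ℕ} (h : N < (g + 1) * m) : ¬ Drops g (range N) m := by
  intro hd
  have := drops_range hd
  omega

theorem drops_Icc {g a b d : ℕ} (h : a + d * (g + 1) ≤ b + 1) : Drops g (Icc a b) d := by
  refine ⟨fun i => a + i * (g + 1), fun i => a + i * (g + 1) + g, fun i hi => ?_, fun i hi => ?_⟩
  · have h1 : (i + 1) * (g + 1) ≤ d * (g + 1) := Nat.mul_le_mul_right _ hi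
    have h2 : (i + 1) * (g + 1) = i * (g + 1) + g + 1 := by ring
    dsimp only
    refine ⟨mem_Icc.2 ⟨by omega, by omega⟩, mem_Icc.2 ⟨by omega, by omega⟩, le_rfl⟩
  · have h2 : (i + 1) * (g + 1) = i * (g + 1) + g + 1 := by ring
    show a + i * (g + 1) + g < a + (i + 1) * (g + 1)
    omega

end Pool.Agent.SliceCircuits
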