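import Mathlib
import Pool.Agent.Lib.MP_0a1b52_lc_SLICE2.Dist
import Pool.Agent.Lib.MP_0a1b52_lc_SLICE2.Drops2

/-!
The asymptotic form for circuits without NOT gates which separate two slices.
-/

namespace Pool.Agent.SliceCircuits

open Finset Pool.Agent

/-- There are a constant `k` and, for all large `n`, a circuit with at most `n ^ k` gates, none of
them a NOT gate, which accepts all graphs with `a n` edges and a clique with more than `√n` vertices,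
and rejects all graphs with `b n` edges and without such cliques. -/
def PolySep (a b : ℕ → ℕ) : Prop :=
  ∃ k N : ℕ, ∀ n ≥ N, ∃ s ≤ n ^ k, ∃ D : Circuit (EdgeVar n) s,
    D.numNot = 0 ∧ D.Separates (a n) (b n)

theorem Circuit.CorrectOn.separates {n s : ℕ} {D : Circuit (EdgeVar n) s} {R : Set ℕ}
    (h : D.CorrectOn R) {a b : ℕ} (ha : a ∈ R) (hb : b ∈ R) : D.Separates a b := by
  intro G
  constructor
  · intro h1 h2
    exact (h G (by rw [h1]; exact ha)).2 h2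
  · intro h1 h2 h3
    exact h2 ((h G (by rw [h1]; exact hb)).1 h3)

/-- Enlarging the exponent. -/
theorem self_size (n₀ k : ℕ) {n m s s' : ℕ} (hm : 2 ≤ m) (hn : n = (4 * m + n₀) * (4 * m + n₀))
    (hs : s ≤ n ^ k) (hs' : s' ≤ 10 * (n + s) ^ 2) :
    s' ≤ m ^ ((4 + n₀) * (2 * (10 + (k + 2) * 2)) + 2 * (10 + (k + 2) * 2)) := by
  have hnK : 4 * m + n₀ ≤ n := by
    rw [hn]
    exact Nat.le_mul_self _
  have h3 : s' ≤ n ^ (10 + (k + 2) * 2) := hs'.trans (poly_bound 10 k n s 2 (by omega) hs)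
  have h4 : 4 * m + n₀ ≤ m ^ (4 + n₀) * m := by
    have h5 : 4 + n₀ ≤ m ^ (4 + n₀) := (Nat.lt_pow_self (by omega)).le
    calc 4 * m + n₀ ≤ 4 * m + n₀ * m := by
          have : n₀ ≤ n₀ * m := Nat.le_mul_of_pos_right _ (by omega)
          omega
      _ = (4 + n₀) * m := by ring
      _ ≤ _ := Nat.mul_le_mul_right _ h5
  have h5 : n ≤ (m ^ (4 + n₀) * m) ^ 2 := by
    rw [hn, pow_two]
    exact Nat.mul_le_mul h4 h4
  calc s' ≤ n ^ (10 + (k + 2) * 2) := h3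
    _ ≤ ((m ^ (4 + n₀) * m) ^ 2) ^ (10 + (k + 2) * 2) := Nat.pow_le_pow_left h5 _
    _ = m ^ ((4 + n₀) * (2 * (10 + (k + 2) * 2)) + 2 * (10 + (k + 2) * 2)) := by
        rw [← pow_mul, mul_pow, ← pow_mul, ← pow_add]

/-- Polynomial size monotone circuits which separate two central slices imply that Q1 is false. -/
theorem self_asym_sep (a b : ℕ → ℕ)
    (hab : ∃ n₀ : ℕ, ∀ n ≥ n₀, n ≤ a n ∧ a n ≤ b n ∧ b n + n * Nat.sqrt n ≤ n.choose 2)
    (hP : PolySep a b) : PolyAll := by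
  obtain ⟨k, N, hk⟩ := hP
  obtain ⟨n₀, h0⟩ := hab
  obtain ⟨K, hK⟩ : ∃ K, K = n₀ + N + 16 := ⟨_, rfl⟩
  refine ⟨(4 + K) * (2 * (10 + (k + 2) * 2)) + 2 * (10 + (k + 2) * 2), 2, fun m hm => ?_⟩
  obtain ⟨n, hn⟩ : ∃ n, n = (4 * m + K) * (4 * m + K) := ⟨_, rfl⟩
  have hsq : Nat.sqrt n = 4 * m + K := by
    rw [hn]
    exact Nat.sqrt_eq _
  have hnK : 4 * m + K ≤ n := by
    rw [hn]
    exact Nat.le_mul_self _
  obtain ⟨s, hs, D, hD1, hD⟩ := hk n (by omega)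
  obtain ⟨h1, h2, h3⟩ := h0 n (by omega)
  obtain ⟨s', hs', D', hD'⟩ := self_reduction_sep n s D (a n) (b n) m (by omega) (by omega)
    h1 h2 h3 hD1 hD
  exact ⟨s', self_size K k hm hn hs hs', D', hD'⟩

theorem not_drops_pair {K a b : ℕ} (hab : a ≤ b) (h : b ≤ a + K) : ¬ Drops (K + 1) {a, b} 1 := by
  rintro ⟨u, v, h1, -⟩
  obtain ⟨h2, h3, h4⟩ := h1 0 (by norm_num)
  simp only [mem_insert, mem_singleton] at h2 h3
  omega

/-- At a constant distance the existence of monotone circuits of polynomial size which separate two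
slices is equivalent to the negation of Q1. -/
theorem sep_iff (K : ℕ) (a b : ℕ → ℕ)
    (hab : ∃ n₀ : ℕ, ∀ n ≥ n₀, n ≤ a n ∧ a n ≤ b n ∧ b n ≤ a n + K ∧
      b n + n * Nat.sqrt n ≤ n.choose 2) : PolySep a b ↔ ¬ Q1 := by
  obtain ⟨n₀, h0⟩ := hab
  constructor
  · intro hP
    exact not_Q1_of_polyAll (self_asym_sep a b
      ⟨n₀, fun n hn => ⟨(h0 n hn).1, (h0 n hn).2.1, (h0 n hn).2.2.2⟩⟩ hP)
  · intro hQ
    obtain ⟨k, N, hk⟩ := upper2_asym K (fun n => {a n, b n}) (fun _ => 0)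
      (polyAll_of_not_Q1 hQ) ⟨n₀, fun n hn => by
        rw [pow_zero]
        exact not_drops_pair (h0 n hn).2.1 (h0 n hn).2.2.1⟩
    refine ⟨k, N, fun n hn => ?_⟩
    obtain ⟨s, hs, D, hD1, hD2⟩ := hk n hn
    refine ⟨s, hs, D, Nat.le_zero.1 hD1, hD2.separates ?_ ?_⟩
    · simp
    · simp

end Pool.Agent.SliceCircuits
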