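import Mathlib
import Pool.Agent.Lib.MP_0a1b52_lc_SLICE2.DistAsym
import Pool.Agent.Lib.MP_0a1b52_lc_SLICE2.Asm
import Pool.Agent.Lib.MP_0a1b52_lc_WIN.QP

/-!
The lower bound for circuits without NOT gates which separate two slices.
-/

namespace Pool.Agent.SliceCircuits

open Finset Pool.Agent

/-- The exact theorem for the separation of two slices by circuits without NOT gates, polynomial
size. -/
theorem sep_dichotomy (K : ℕ) (a b : ℕ → ℕ)
    (hab : ∀ C : ℕ, ∃ n₀ : ℕ, ∀ n ≥ n₀, 2 * n ≤ a n ∧ a n ≤ b n ∧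
      b n + 2 * (n * Nat.sqrt n) ≤ n.choose 2 ∧
      (b n ≤ a n + K ∨ a n + C * Nat.log 2 n ^ 4 ≤ b n)) :
    PolySep a b ↔ (∃ n₀ : ℕ, ∀ n ≥ n₀, b n ≤ a n + K) ∧ ¬ Q1 := by
  constructor
  · intro hP
    have hP' := hP
    obtain ⟨C, hC⟩ := lower3
    obtain ⟨k, N, hk⟩ := hP
    obtain ⟨n₁, h1⟩ := hab (C * (2 * k + 2) ^ 8)
    obtain ⟨n₂, h2⟩ := log_pow_le_sqrt (C * (2 * k + 2) ^ 8)
    refine ⟨⟨n₁ + n₂ + N + 2, fun n hn => ?_⟩, not_Q1_of_polyAll (self_asym_sep a b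
      ⟨n₁, fun n hn => ?_⟩ hP')⟩
    · obtain ⟨h3, h4, h5, h6⟩ := h1 n (by omega)
      rcases h6 with h6 | h6
      · exact h6
      exfalso
      obtain ⟨s, hs, D, hD1, hD2⟩ := hk n (by omega)
      have hlog := log_size n s k (by omega) hs
      have hsq := h2 n (by omega)
      set L := Nat.log 2 (n * s) + 1 with hLdef
      have hL8 : L ^ 8 ≤ (2 * k + 2) ^ 8 * Nat.log 2 n ^ 8 := by
        rw [← mul_pow]
        exact Nat.pow_le_pow_left hlog 8
      have hL4 : L ^ 4 ≤ (2 * k + 2) ^ 8 * Nat.log 2 n ^ 4 := by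
        calc L ^ 4 ≤ ((2 * k + 2) * Nat.log 2 n) ^ 4 := Nat.pow_le_pow_left hlog 4
          _ = (2 * k + 2) ^ 4 * Nat.log 2 n ^ 4 := mul_pow _ _ _
          _ ≤ _ := Nat.mul_le_mul_right _ (Nat.pow_le_pow_right (by omega) (by norm_num))
      have h7 : C * L ^ 8 ≤ Nat.sqrt n := by
        calc C * L ^ 8 ≤ C * ((2 * k + 2) ^ 8 * Nat.log 2 n ^ 8) := Nat.mul_le_mul_left _ hL8
          _ = C * (2 * k + 2) ^ 8 * Nat.log 2 n ^ 8 := by ring
          _ ≤ Nat.sqrt n := hsq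
      have h8 : C * L ^ 4 ≤ C * (2 * k + 2) ^ 8 * Nat.log 2 n ^ 4 := by
        calc C * L ^ 4 ≤ C * ((2 * k + 2) ^ 8 * Nat.log 2 n ^ 4) := Nat.mul_le_mul_left _ hL4
          _ = C * (2 * k + 2) ^ 8 * Nat.log 2 n ^ 4 := by ring
      have h9 : Nat.sqrt n ≤ n := Nat.sqrt_le_self n
      have h10 : Nat.sqrt n ≤ n * Nat.sqrt n := Nat.le_mul_of_pos_left _ (by omega)
      have h11 := hC n s D 1 (fun _ => a n) (fun _ => b n) h7
        (fun _ _ => by
          rw [← hLdef]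
          show a n + C * L ^ 4 ≤ b n
          omega)
        (fun i hi => absurd hi (by omega))
        (fun _ _ => by
          rw [← hLdef, Nat.mul_one]
          exact ⟨by omega, by omega⟩)
        (fun _ _ G hG => (hD2 G).1 hG)
        (fun _ _ G hG => (hD2 G).2 hG)
      rw [hD1, pow_zero] at h11
      exact lt_irrefl _ h11
    · obtain ⟨h3, h4, h5, -⟩ := h1 n hn
      exact ⟨by omega, h4, by omega⟩
  · rintro ⟨⟨n₀, h0⟩, hQ⟩
    obtain ⟨n₁, h1⟩ := hab 0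
    refine (sep_iff K a b ⟨n₀ + n₁, fun n hn => ?_⟩).2 hQ
    obtain ⟨h3, h4, h5, -⟩ := h1 n (by omega)
    exact ⟨by omega, h4, h0 n (by omega), by omega⟩

end Pool.Agent.SliceCircuits
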