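import Mathlib
import Pool.Agent.Lib.MP_0a1b52_lc_SLICE2.Asm

/-!
Chains of drops of height at least 1, and spread sets of slices.
-/

namespace Pool.Agent.SliceCircuits

open Finset

/-- A set with `r` elements has a chain of `⌊r / 2⌋` drops of height at least 1 and no longer one. -/
theorem drops_one_iff (R : Finset ℕ) (d : ℕ) : Drops 1 R d ↔ 2 * d ≤ R.card := by
  classical
  constructor
  · rintro ⟨a, b, h1, h2⟩
    have hmono : ∀ j i, i < j → j < d → b i < a j := by
      intro j
      induction j with
      | zero => intro i hi; omega
      | succ j ih =>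
        intro i hi hj
        have h3 := (h1 j (by omega)).2.2
        have h4 := h2 j hj
        rcases Nat.lt_succ_iff_lt_or_eq.1 hi with h5 | rfl
        · have := ih i h5 (by omega)
          omega
        · omega
    have hc : ∀ i j, i < d → j < d → a i = a j → i = j := by
      intro i j hi hj hij
      rcases lt_trichotomy i j with h5 | h5 | h5
      · have h6 := hmono j i h5 hj
        have h7 := (h1 i hi).2.2
        omega
      · exact h5
      · have h6 := hmono i j h5 hi
        have h7 := (h1 j hj).2.2
        omega
    have hc' : ∀ i j, i < d → j < d → b i = b j → i = j := by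
      intro i j hi hj hij
      rcases lt_trichotomy i j with h5 | h5 | h5
      · have h6 := hmono j i h5 hj
        have h7 := (h1 j hj).2.2
        omega
      · exact h5
      · have h6 := hmono i j h5 hi
        have h7 := (h1 i hi).2.2
        omega
    have hd : Disjoint ((range d).image a) ((range d).image b) := by
      rw [disjoint_left]
      intro m hm hm'
      obtain ⟨i, hi, rfl⟩ := mem_image.1 hm
      obtain ⟨j, hj, hij⟩ := mem_image.1 hm'
      rw [mem_range] at hi hj
      rcases lt_trichotomy i j with h5 | h5 | h5
      · have h6 := hmono j i h5 hj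
        have h7 := (h1 i hi).2.2
        have h8 := (h1 j hj).2.2
        omega
      · subst h5
        have h7 := (h1 i hi).2.2
        omega
      · have h6 := hmono i j h5 hi
        omega
    have h3 : (range d).image a ∪ (range d).image b ⊆ R := by
      intro m hm
      rcases mem_union.1 hm with hm | hm
      · obtain ⟨i, hi, rfl⟩ := mem_image.1 hm
        exact (h1 i (mem_range.1 hi)).1
      · obtain ⟨i, hi, rfl⟩ := mem_image.1 hm
        exact (h1 i (mem_range.1 hi)).2.1
    have h4 := Finset.card_le_card h3
    rw [card_union_of_disjoint hd, card_image_of_injOn, card_image_of_injOn, card_range] at h4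
    · omega
    · intro i hi j hj hij
      rw [coe_range, Set.mem_Iio] at hi hj
      exact hc' i j hi hj hij
    · intro i hi j hj hij
      rw [coe_range, Set.mem_Iio] at hi hj
      exact hc i j hi hj hij
  · intro h
    set f := R.orderEmbOfFin rfl with hf
    have hfR : ∀ i, f i ∈ R := fun i => orderEmbOfFin_mem R rfl i
    rcases Nat.eq_zero_or_pos d with rfl | hd
    · exact ⟨fun _ => 0, fun _ => 0, fun i hi => by omega, fun i hi => by omega⟩
    refine ⟨fun i => if hi : 2 * i < R.card then f ⟨2 * i, hi⟩ else 0,
      fun i => if hi : 2 * i + 1 < R.card then f ⟨2 * i + 1, hi⟩ else 0, fun i hi => ?_,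
      fun i hi => ?_⟩
    · have h3 : 2 * i + 1 < R.card := by omega
      have h4 : 2 * i < R.card := by omega
      simp only [dif_pos h3, dif_pos h4]
      refine ⟨hfR _, hfR _, ?_⟩
      have : f ⟨2 * i, h4⟩ < f ⟨2 * i + 1, h3⟩ := by
        refine f.strictMono ?_
        show 2 * i < 2 * i + 1
        omega
      omega
    · have h3 : 2 * i + 1 < R.card := by omega
      have h4 : 2 * (i + 1) < R.card := by omega
      simp only [dif_pos h3, dif_pos h4]
      refine f.strictMono ?_
      show 2 * i + 1 < 2 * (i + 1)
      omega

theorem Spread.clustered {R : ℕ → Finset ℕ} (h : Spread R) : Clustered 0 R := by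
  intro C
  obtain ⟨n₀, h0⟩ := h C
  refine ⟨n₀, fun n hn => ?_⟩
  obtain ⟨h1, h2, h3⟩ := h0 n hn
  exact ⟨h1, fun a ha b hb hab => h2 a ha b hb (by omega), h3⟩

end Pool.Agent.SliceCircuits
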