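import Mathlib
import Pool.Agent.Lib.MP_0a1b52_lc_SLICE2.Dist

/-!
A circuit without NOT gates which separates the slice `a` from the slice `b`, `a ≤ b`, is correct on
the slice `b`.
-/

namespace Pool.Agent.SliceCircuits

open Finset Pool.Agent

/-- A graph with a clique contains a subgraph with a clique and a given number of edges. -/
theorem exists_sub_clique {n a : ℕ} (G : SimpleGraph (Fin n)) (ha : n ≤ a)
    (hG : a ≤ G.edgeSet.ncard) (hc : CliqueModules.HasClique G) :
    ∃ H : SimpleGraph (Fin n), H ≤ G ∧ H.edgeSet.ncard = a ∧ CliqueModules.HasClique H := by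
  classical
  obtain ⟨K, hK, hKc⟩ := (CliqueModules.hasClique_iff G).1 hc
  obtain ⟨K', hK', hKc'⟩ := exists_subset_card_eq hKc
  set E : Finset (EdgeVar n) := univ.filter fun e => e.1.1 ∈ K' ∧ e.1.2 ∈ K' with hE
  have hE1 : E.card ≤ (Nat.sqrt n + 1).choose 2 := by
    rw [← hKc', ← card_powersetCard]
    refine card_le_card_of_injOn (fun e : EdgeVar n => ({e.1.1, e.1.2} : Finset (Fin n))) ?_ ?_
    · intro e he
      have he' := (mem_filter.1 (mem_coe.1 he)).2
      refine mem_coe.2 (mem_powersetCard.2 ⟨?_, card_pair (ne_of_lt e.2)⟩)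
      intro v hv
      rcases mem_insert.1 hv with rfl | hv
      · exact he'.1
      · rw [mem_singleton.1 hv]
        exact he'.2
    · intro e _ e' _ h
      have h1 : e.1.1 ∈ ({e'.1.1, e'.1.2} : Finset (Fin n)) := by
        rw [← show ({e.1.1, e.1.2} : Finset (Fin n)) = {e'.1.1, e'.1.2} from h]
        exact mem_insert_self _ _
      have h2 : e.1.2 ∈ ({e'.1.1, e'.1.2} : Finset (Fin n)) := by
        rw [← show ({e.1.1, e.1.2} : Finset (Fin n)) = {e'.1.1, e'.1.2} from h]
        exact mem_insert_of_mem (mem_singleton_self _)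
      have h3 := e.2
      have h4 := e'.2
      rw [mem_insert, mem_singleton] at h1 h2
      apply Subtype.ext
      rcases h1 with h1 | h1 <;> rcases h2 with h2 | h2
      · rw [h1, h2] at h3
        exact absurd h3 (lt_irrefl _)
      · exact Prod.ext h1 h2
      · rw [h1, h2] at h3
        exact absurd h3 (lt_asymm h4)
      · rw [h1, h2] at h3
        exact absurd h3 (lt_irrefl _)
  have hE2 : E.card ≤ n := by
    have h1 := CliqueModules.two_mul_choose_two (Nat.sqrt n + 1)
    rw [Nat.add_sub_cancel] at h1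
    have h2 : Nat.sqrt n * Nat.sqrt n ≤ n := Nat.sqrt_le n
    have h3 : Nat.sqrt n ≤ n := Nat.sqrt_le_self n
    have h4 : (Nat.sqrt n + 1) * Nat.sqrt n = Nat.sqrt n * Nat.sqrt n + Nat.sqrt n := by ring
    omega
  have hE3 : E ⊆ CliqueModules.edgesOf G := by
    intro e he
    obtain ⟨-, h1, h2⟩ := mem_filter.1 he
    exact (CliqueModules.mem_edgesOf G e).2 (hK (hK' h1) (hK' h2) (ne_of_lt e.2))
  obtain ⟨F, hF1, hF2, hF3⟩ := exists_subsuperset_card_eq hE3 (hE2.trans ha)
    (by rw [← CliqueModules.ncard_edgeSet]; exact hG)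
  have hadj : ∀ e : EdgeVar n,
      (CliqueModules.toGraph (fun e => e ∈ F)).Adj e.1.1 e.1.2 ↔ e ∈ F := fun e =>
    CliqueModules.toGraph_adj _ e
  refine ⟨CliqueModules.toGraph (fun e => e ∈ F), ?_, ?_, ?_⟩
  · intro u v huv
    rcases huv with ⟨h, h1⟩ | ⟨h, h1⟩
    · exact (CliqueModules.mem_edgesOf G _).1 (hF2 h1)
    · exact ((CliqueModules.mem_edgesOf G _).1 (hF2 h1)).symm
  · rw [CliqueModules.ncard_edgeSet, ← hF3]
    congr 1
    ext e
    rw [CliqueModules.mem_edgesOf, hadj]
  · rw [CliqueModules.hasClique_iff]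
    refine ⟨K', ?_, hKc'.ge⟩
    intro u hu v hv huv
    have hu' := mem_coe.1 hu
    have hv' := mem_coe.1 hv
    rcases lt_or_gt_of_ne huv with h | h
    · exact Or.inl ⟨h, hF1 (mem_filter.2 ⟨mem_univ _, hu', hv'⟩)⟩
    · exact Or.inr ⟨h, hF1 (mem_filter.2 ⟨mem_univ _, hv', hu'⟩)⟩

/-- A circuit without NOT gates which separates the slice `a` from the slice `b`, `a ≤ b`, is correct
on the slice `b`. -/
theorem Circuit.Separates.correctOn {n s : ℕ} {D : Circuit (EdgeVar n) s} {a b : ℕ}
    (hD : D.Separates a b) (hN : D.numNot = 0) (ha : n ≤ a) (hab : a ≤ b) :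
    D.CorrectOn {b} := by
  intro G hG
  have hG' : G.edgeSet.ncard = b := hG
  constructor
  · intro h
    by_contra hcon
    exact (hD G).2 hG' hcon h
  · intro h
    obtain ⟨H, h1, h2, h3⟩ := exists_sub_clique G ha (by omega) h
    refine D.mono_of_numNot hN ?_ ((hD H).1 h2 h3)
    intro e he
    exact h1 he

end Pool.Agent.SliceCircuits
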